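import Mathlib

namespace R391DS

theorem interval_dich (l r : ℕ → ℕ) (n : ℕ) (hn : 1 ≤ n) : ∀ (t : ℕ) (A : Finset ℕ),
    (∀ a ∈ A, l a ≤ r a) → t * n ≤ A.card →
    (∃ B ⊆ A, B.card = t ∧ ∀ a ∈ B, ∀ b ∈ B, a ≠ b → r a < l b ∨ r b < l a) ∨
    (∃ x, n ≤ (A.filter (fun a => l a ≤ x ∧ x ≤ r a)).card) := by
  intro t
  induction t with
  | zero =>
    intro A _ _
    exact Or.inl ⟨∅, by simp, by simp, by simp⟩
  | succ t ih =>
    intro A hA hcard
    have hne : A.Nonempty := by
      rw [← Finset.card_pos]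
      nlinarith
    obtain ⟨a0, ha0, hmin⟩ := Finset.exists_min_image A r hne
    by_cases hF : n ≤ (A.filter (fun a => l a ≤ r a0 ∧ r a0 ≤ r a)).card
    · exact Or.inr ⟨r a0, hF⟩
    · rw [not_le] at hF
      have hsplit : A.card ≤ (A.filter (fun a => l a ≤ r a0 ∧ r a0 ≤ r a)).card +
          (A.filter (fun a => r a0 < l a)).card := by
        rw [← Finset.card_union_of_disjoint]
        · apply Finset.card_le_card
          intro a ha
          rw [Finset.mem_union, Finset.mem_filter, Finset.mem_filter]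
          rcases le_or_gt (l a) (r a0) with h | h
          · exact Or.inl ⟨ha, h, hmin a ha⟩
          · exact Or.inr ⟨ha, h⟩
        · rw [Finset.disjoint_left]
          intro a ha hb
          rw [Finset.mem_filter] at ha hb
          omega
      have hcard' : t * n ≤ (A.filter (fun a => r a0 < l a)).card := by
        rw [Nat.succ_mul] at hcard
        omega
      rcases ih (A.filter (fun a => r a0 < l a))
        (fun a ha => hA a (Finset.mem_filter.1 ha).1) hcard' with ⟨B, hB, hBc, hBd⟩ | ⟨x, hx⟩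
      · left
        have ha0B : a0 ∉ B := by
          intro h
          have h1 := (Finset.mem_filter.1 (hB h)).2
          have h2 := hA a0 ha0
          omega
        refine ⟨insert a0 B, ?_, ?_, ?_⟩
        · intro a ha
          rw [Finset.mem_insert] at ha
          rcases ha with rfl | ha
          · exact ha0
          · exact (Finset.mem_filter.1 (hB ha)).1
        · rw [Finset.card_insert_of_notMem ha0B, hBc]
        · intro a ha b hb hab
          rw [Finset.mem_insert] at ha hb
          rcases ha with rfl | ha <;> rcases hb with rfl | hb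
          · exact (hab rfl).elim
          · exact Or.inl (Finset.mem_filter.1 (hB hb)).2
          · exact Or.inr (Finset.mem_filter.1 (hB ha)).2
          · exact hBd a ha b hb hab
      · right
        refine ⟨x, hx.trans (Finset.card_le_card ?_)⟩
        exact Finset.filter_subset_filter _ (Finset.filter_subset _ _)

theorem dich_iter (t : ℕ) : ∀ m n : ℕ, 1 ≤ n → ∃ D, ∀ (l r : ℕ → ℕ → ℕ) (A : Finset ℕ),
    D ≤ A.card → (∀ c < m, ∀ a ∈ A, l c a ≤ r c a) →
    (∃ c < m, ∃ B ⊆ A, B.card = t ∧ ∀ a ∈ B, ∀ b ∈ B, a ≠ b → r c a < l c b ∨ r c b < l c a) ∨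
    (∃ B ⊆ A, n ≤ B.card ∧ ∃ x : ℕ → ℕ, ∀ c < m, ∀ a ∈ B, l c a ≤ x c ∧ x c ≤ r c a) := by
  intro m
  induction m with
  | zero =>
    intro n _
    exact ⟨n, fun l r A hA _ => Or.inr ⟨A, subset_rfl, hA, fun _ => 0, by simp⟩⟩
  | succ m ih =>
    intro n hn
    obtain ⟨D, hD⟩ := ih (t * n + 1) (by omega)
    refine ⟨D, fun l r A hA hlr => ?_⟩
    rcases hD l r A hA (fun c hc => hlr c (by omega)) with ⟨c, hc, h⟩ | ⟨B, hBA, hB, x, hx⟩
    · exact Or.inl ⟨c, by omega, h⟩
    · rcases interval_dich (l m) (r m) n hn t B (fun a ha => hlr m (by omega) a (hBA ha))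
        (by omega) with ⟨B', hB', h1, h2⟩ | ⟨y, hy⟩
      · exact Or.inl ⟨m, by omega, B', hB'.trans hBA, h1, h2⟩
      · right
        refine ⟨_, (Finset.filter_subset _ _).trans hBA, hy, fun c => if c = m then y else x c, ?_⟩
        intro c hc a ha
        rw [Finset.mem_filter] at ha
        by_cases hcm : c = m
        · subst hcm
          simpa using ha.2
        · simp only [hcm, if_false]
          exact hx c (by omega) a ha.1

open Classical in
theorem es (q : ℕ → ℕ) (A : Finset ℕ) (hq : Set.InjOn q A) (n : ℕ) (hn : 1 ≤ n)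
    (hA : n * n ≤ A.card) :
    ∃ B ⊆ A, n ≤ B.card ∧ (StrictMonoOn q B ∨ StrictAntiOn q B) := by
  by_contra hcon
  push Not at hcon
  have hmono : ∀ B ⊆ A, StrictMonoOn q B → B.card < n := by
    intro B hB h
    by_contra h'
    rw [not_lt] at h'
    exact (hcon B hB h').1 h
  let P : ℕ → Finset (Finset ℕ) := fun a => A.powerset.filter
    (fun B => StrictMonoOn q B ∧ a ∈ B ∧ ∀ b ∈ B, b ≤ a)
  let lab : ℕ → ℕ := fun a => (P a).sup Finset.card
  have hlab : ∀ a ∈ A, lab a ∈ Finset.range n := by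
    intro a _
    rw [Finset.mem_range, Finset.sup_lt_iff (show (⊥ : ℕ) < n from hn)]
    intro B hB
    rw [Finset.mem_filter, Finset.mem_powerset] at hB
    exact hmono B hB.1 hB.2.1
  obtain ⟨y, _, hy⟩ := Finset.exists_le_card_fiber_of_mul_le_card_of_maps_to hlab
    (by simpa using (by omega : n ≠ 0)) (by simpa using hA)
  refine (hcon _ (Finset.filter_subset _ _) hy).2 ?_
  intro a ha b hb hab
  rw [Finset.mem_coe, Finset.mem_filter] at ha hb
  by_contra hqab
  rw [not_lt] at hqab
  have hlt : q a < q b := by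
    rcases hqab.eq_or_lt with h | h
    · exact (hab.ne (hq ha.1 hb.1 h)).elim
    · exact h
  have hne : (P a).Nonempty := by
    refine ⟨{a}, ?_⟩
    rw [Finset.mem_filter, Finset.mem_powerset]
    refine ⟨by simpa using ha.1, ?_, by simp, by simp⟩
    intro x hx y hy hxy
    simp only [Finset.coe_singleton, Set.mem_singleton_iff] at hx hy
    omega
  obtain ⟨B, hB, hBs⟩ := Finset.exists_mem_eq_sup (P a) hne Finset.card
  rw [Finset.mem_filter, Finset.mem_powerset] at hB
  obtain ⟨hBA, hBm, haB, hBle⟩ := hB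
  have hbB : b ∉ B := fun h => by
    have := hBle b h
    omega
  have hins : insert b B ∈ P b := by
    rw [Finset.mem_filter, Finset.mem_powerset]
    refine ⟨?_, ?_, Finset.mem_insert_self _ _, ?_⟩
    · intro c hc
      rw [Finset.mem_insert] at hc
      rcases hc with rfl | hc
      · exact hb.1
      · exact hBA hc
    · intro x hx y hy hxy
      rw [Finset.mem_coe, Finset.mem_insert] at hx hy
      rcases hx with rfl | hx <;> rcases hy with rfl | hy
      · omega
      · have := hBle y hy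
        omega
      · rcases (hBle x hx).eq_or_lt with h | h
        · rw [h]
          exact hlt
        · exact (hBm hx haB h).trans hlt
      · exact hBm hx hy hxy
    · intro c hc
      rw [Finset.mem_insert] at hc
      rcases hc with rfl | hc
      · exact le_rfl
      · have := hBle c hc
        omega
  have h1 : (insert b B).card ≤ lab b := Finset.le_sup (f := Finset.card) hins
  rw [Finset.card_insert_of_notMem hbB] at h1
  have h2 : lab a = B.card := hBs
  omega

theorem es_iter : ∀ m n : ℕ, 1 ≤ n → ∃ D, ∀ (q : ℕ → ℕ → ℕ) (A : Finset ℕ),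
    D ≤ A.card → (∀ c < m, Set.InjOn (q c) A) →
    ∃ B ⊆ A, n ≤ B.card ∧ ∀ c < m, StrictMonoOn (q c) B ∨ StrictAntiOn (q c) B := by
  intro m
  induction m with
  | zero =>
    intro n _
    exact ⟨n, fun q A hA _ => ⟨A, subset_rfl, hA, by simp⟩⟩
  | succ m ih =>
    intro n hn
    obtain ⟨D, hD⟩ := ih (n * n) (by nlinarith)
    refine ⟨D, fun q A hA hq => ?_⟩
    obtain ⟨B, hBA, hB, hBm⟩ := hD q A hA (fun c hc => hq c (by omega))
    obtain ⟨B', hB'B, hB', hB'm⟩ := es (q m) B ((hq m (by omega)).mono hBA) n hn hB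
    refine ⟨B', hB'B.trans hBA, hB', ?_⟩
    intro c hc
    by_cases hcm : c = m
    · subst hcm
      exact hB'm
    · rcases hBm c (by omega) with h | h
      · exact Or.inl (h.mono hB'B)
      · exact Or.inr (h.mono hB'B)

theorem exists_enum (F : Finset ℕ) (t : ℕ) (h : t ≤ F.card) :
    ∃ p : ℕ → ℕ, (∀ j < t, p j ∈ F) ∧ ∀ i j, i < j → j < t → p i < p j := by
  refine ⟨fun j => if hj : j < F.card then F.orderEmbOfFin rfl ⟨j, hj⟩ else 0, ?_, ?_⟩
  · intro j hj
    have : j < F.card := by omega
    simp [this]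
  · intro i j hij hj
    have h1 : j < F.card := by omega
    have h2 : i < F.card := by omega
    simp only [h1, h2, dite_true]
    rw [OrderEmbedding.lt_iff_lt]
    exact hij

theorem emb_up {α : Type} [LinearOrder α] (A : Finset α) (E : Finset ℕ) (h : A.card ≤ E.card) :
    ∃ φ : α → ℕ, (∀ a ∈ A, φ a ∈ E) ∧ ∀ a ∈ A, ∀ b ∈ A, a < b → φ a < φ b := by
  obtain ⟨p, hp1, hp2⟩ := exists_enum E A.card h
  have hr : ∀ a ∈ A, (A.filter (· < a)).card < A.card := by
    intro a ha
    apply Finset.card_lt_card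
    rw [Finset.ssubset_iff_of_subset (Finset.filter_subset _ _)]
    exact ⟨a, ha, by simp⟩
  refine ⟨fun a => p (A.filter (· < a)).card, fun a ha => hp1 _ (hr a ha), ?_⟩
  intro a ha b hb hab
  apply hp2 _ _ _ (hr b hb)
  apply Finset.card_lt_card
  rw [Finset.ssubset_iff_of_subset]
  · exact ⟨a, by simp [ha, hab], by simp⟩
  · intro c hc
    rw [Finset.mem_filter] at hc ⊢
    exact ⟨hc.1, hc.2.trans hab⟩

theorem emb_down {α : Type} [LinearOrder α] (A : Finset α) (E : Finset ℕ)
    (h : A.card ≤ E.card) :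
    ∃ φ : α → ℕ, (∀ a ∈ A, φ a ∈ E) ∧ ∀ a ∈ A, ∀ b ∈ A, a < b → φ b < φ a := by
  obtain ⟨p, hp1, hp2⟩ := exists_enum E A.card h
  have hr : ∀ a ∈ A, (A.filter (a < ·)).card < A.card := by
    intro a ha
    apply Finset.card_lt_card
    rw [Finset.ssubset_iff_of_subset (Finset.filter_subset _ _)]
    exact ⟨a, ha, by simp⟩
  refine ⟨fun a => p (A.filter (a < ·)).card, fun a ha => hp1 _ (hr a ha), ?_⟩
  intro a ha b hb hab
  apply hp2 _ _ _ (hr a ha)
  apply Finset.card_lt_card
  rw [Finset.ssubset_iff_of_subset]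
  · exact ⟨b, by simp [hb, hab], by simp⟩
  · intro c hc
    rw [Finset.mem_filter] at hc ⊢
    exact ⟨hc.1, hab.trans hc.2⟩

end R391DS
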