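import Mathlib

/-!
Systems of blocks (a lower bound construction for sequences without an
alternation of length five): building step.
-/

namespace R391DS

variable {T L : Type}

/-- the occurrence of `x` in block `i` comes before the occurrence of `y` in block `j` -/
def Bef [LT T] [LT L] (i : T) (x : L) (j : T) (y : L) : Prop :=
  i < j ∨ (i = j ∧ x < y)

/-- a phase certificate: `x` and `y` do not alternate five times. -/
def NoAlt [LT T] [LT L] (R : T → L → Prop) (x y : L) : Prop :=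
  ∃ px py : T → ℕ, (∀ i, px i ≤ 3) ∧ (∀ i, py i ≤ 3) ∧
    (∀ i j, R i x → R j y → Bef i x j y → px i < py j) ∧
    (∀ i j, R i x → R j y → Bef j y i x → py j < px i)

theorem NoAlt.symm [LT T] [LT L] {R : T → L → Prop} {x y : L} (h : NoAlt R x y) :
    NoAlt R y x := by
  obtain ⟨px, py, h1, h2, h3, h4⟩ := h
  exact ⟨py, px, h2, h1, fun i j hi hj h => h4 j i hj hi h, fun i j hi hj h => h3 j i hj hi h⟩

structure IsSys [LinearOrder T] [LinearOrder L] (d m : ℕ) (tm : Finset T) (lt : Finset L)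
    (sp : Finset T) (R : T → L → Prop) : Prop where
  R_tm : ∀ i x, R i x → i ∈ tm
  R_lt : ∀ i x, R i x → x ∈ lt
  sp_tm : sp ⊆ tm
  sp_card : ∀ i ∈ sp, ∃ B : Finset L, B.card = m ∧ ∀ x, x ∈ B ↔ R i x
  many : ∀ x ∈ lt, ∃ B : Finset T, d < B.card ∧ ∀ i ∈ B, R i x
  first : ∀ x ∈ lt, ∃ i ∈ sp, R i x
  only : ∀ i ∈ sp, ∀ x, R i x → ∀ j, R j x → i ≤ j
  inv : ∀ i ∈ sp, ∀ x y, x < y → R i x → R i y → ∀ j k, i < j → i < k → R j x → R k y → k < j
  free : ∀ x y, x < y → x ∈ lt → y ∈ lt → NoAlt R x y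

/-- the basic system: two special blocks with `m` letters each -/
theorem base (d m : ℕ) (hd : d = 0 ∨ m = 0) :
    ∃ (tm : Finset (Fin 2)) (lt : Finset (Fin 2 ×ₗ Fin m)) (sp : Finset (Fin 2))
      (R : Fin 2 → Fin 2 ×ₗ Fin m → Prop), IsSys d m tm lt sp R ∧ sp.card = 2 ∧ tm.card = 2 := by
  classical
  refine ⟨Finset.univ, Finset.univ, Finset.univ, fun i x => (ofLex x).1 = i, ?_, by simp, by simp⟩
  refine ⟨by simp, by simp, by simp, ?_, ?_, ?_, ?_, ?_, ?_⟩
  · intro i _
    refine ⟨Finset.univ.image (fun k : Fin m => toLex (i, k)), ?_, ?_⟩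
    · rw [Finset.card_image_of_injective]
      · simp
      · intro a b hab
        simpa using hab
    · intro x
      simp only [Finset.mem_image, Finset.mem_univ, true_and]
      constructor
      · rintro ⟨k, rfl⟩
        rfl
      · rintro h
        exact ⟨(ofLex x).2, by rw [← h]; rfl⟩
  · intro x _
    rcases hd with rfl | rfl
    · exact ⟨{(ofLex x).1}, by simp, by simp⟩
    · exact (Fin.elim0 (ofLex x).2)
  · intro x _
    exact ⟨(ofLex x).1, by simp, rfl⟩
  · intro i _ x hx j hj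
    exact (hx.symm.trans hj).le
  · intro i _ x y _ hx hy j k hj _ hxj _
    exfalso
    rw [← hx, ← hxj] at hj
    exact lt_irrefl _ hj
  · intro x y hxy _ _
    refine ⟨fun _ => 0, fun _ => 1, by simp, by simp, by simp, ?_⟩
    rintro i j rfl rfl h
    exfalso
    rw [Prod.Lex.lt_iff] at hxy
    rcases h with h | ⟨h, h'⟩
    · rcases hxy with hxy | hxy
      · exact lt_irrefl _ (h.trans hxy)
      · rw [hxy.1] at h
        exact lt_irrefl _ h
    · rw [Prod.Lex.lt_iff] at h'
      rcases hxy with hxy | hxy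
      · rw [h] at hxy
        exact lt_irrefl _ hxy
      · rcases h' with h' | h'
        · rw [h] at h'
          exact lt_irrefl _ h'
        · exact lt_irrefl _ (hxy.2.trans h'.2)

theorem rev_match {α β : Type} [LinearOrder α] [LinearOrder β] (A : Finset α) (B : Finset β)
    (hB : B.Nonempty) (h : A.card = B.card) :
    ∃ g : α → β, (∀ a ∈ A, g a ∈ B) ∧ (∀ b ∈ B, ∃ a ∈ A, g a = b) ∧
      (∀ a ∈ A, ∀ a' ∈ A, a < a' → g a' < g a) := by
  classical
  let e1 := A.orderIsoOfFin h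
  let e2 := B.orderIsoOfFin rfl
  obtain ⟨b0, hb0⟩ := hB
  refine ⟨fun a => if ha : a ∈ A then (e2 (Fin.rev (e1.symm ⟨a, ha⟩)) : β) else b0, ?_, ?_, ?_⟩
  · intro a ha
    simp [ha]
  · intro b hb
    refine ⟨(e1 (Fin.rev (e2.symm ⟨b, hb⟩)) : α), ?_, ?_⟩
    · exact (e1 _).2
    · simp
  · intro a ha a' ha' hlt
    simp only [ha, ha', dite_true]
    have : e1.symm ⟨a, ha⟩ < e1.symm ⟨a', ha'⟩ := by
      rw [OrderIso.lt_iff_lt]
      exact hlt
    have h2 : (e2 (Fin.rev (e1.symm ⟨a', ha'⟩))) < (e2 (Fin.rev (e1.symm ⟨a, ha⟩))) := by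
      rw [OrderIso.lt_iff_lt, Fin.rev_lt_rev]
      exact this
    exact h2

end R391DS
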