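import Mathlib
import Pool.Agent.R391.DS.Sys

namespace R391DS

variable {T₁ L₁ T₂ L₂ : Type} [LinearOrder T₁] [LinearOrder L₁] [LinearOrder T₂] [LinearOrder L₂]

abbrev NT (T₁ T₂ : Type) := T₁ ×ₗ WithTop T₂
abbrev NL (T₁ L₁ L₂ : Type) := L₁ ⊕ₗ (T₁ ×ₗ L₂)

def kp (i : T₁) : NT T₁ T₂ := toLex (i, ⊤)
def cp (i : T₁) (t : T₂) : NT T₁ T₂ := toLex (i, (t : WithTop T₂))
def gl (a : L₁) : NL T₁ L₁ L₂ := toLex (Sum.inl a)
def lc (i : T₁) (y : L₂) : NL T₁ L₁ L₂ := toLex (Sum.inr (toLex (i, y)))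

omit [LinearOrder T₁] [LinearOrder T₂] in
theorem p_cases (p : NT T₁ T₂) : (∃ i, p = kp i) ∨ ∃ i t, p = cp i t := by
  rcases h : (ofLex p) with ⟨i, s⟩
  rcases s with _ | t
  · left
    exact ⟨i, by rw [← toLex_ofLex p, h]; rfl⟩
  · right
    exact ⟨i, t, by rw [← toLex_ofLex p, h]; rfl⟩

@[simp] theorem kp_lt_kp (i j : T₁) : (kp i : NT T₁ T₂) < kp j ↔ i < j := by
  simp [kp, Prod.Lex.toLex_lt_toLex]
@[simp] theorem kp_lt_cp (i j : T₁) (t : T₂) : (kp i : NT T₁ T₂) < cp j t ↔ i < j := by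
  simp [kp, cp, Prod.Lex.toLex_lt_toLex]
@[simp] theorem cp_lt_kp (i j : T₁) (t : T₂) : (cp i t : NT T₁ T₂) < kp j ↔ i ≤ j := by
  simp [kp, cp, Prod.Lex.toLex_lt_toLex, le_iff_lt_or_eq]
@[simp] theorem cp_lt_cp (i j : T₁) (t s : T₂) :
    (cp i t : NT T₁ T₂) < cp j s ↔ i < j ∨ i = j ∧ t < s := by
  simp [cp, Prod.Lex.toLex_lt_toLex]
@[simp] theorem kp_le_kp (i j : T₁) : (kp i : NT T₁ T₂) ≤ kp j ↔ i ≤ j := by
  rw [← not_lt, kp_lt_kp, not_lt]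
@[simp] theorem cp_le_kp (i j : T₁) (t : T₂) : (cp i t : NT T₁ T₂) ≤ kp j ↔ i ≤ j := by
  rw [← not_lt, kp_lt_cp, not_lt]
@[simp] theorem cp_le_cp (i j : T₁) (t s : T₂) :
    (cp i t : NT T₁ T₂) ≤ cp j s ↔ i < j ∨ i = j ∧ t ≤ s := by
  simp [cp, Prod.Lex.toLex_le_toLex]
omit [LinearOrder T₁] [LinearOrder T₂] in
@[simp] theorem kp_inj (i j : T₁) : (kp i : NT T₁ T₂) = kp j ↔ i = j := by
  simp [kp]
omit [LinearOrder T₁] [LinearOrder T₂] in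
@[simp] theorem cp_inj (i j : T₁) (t s : T₂) :
    (cp i t : NT T₁ T₂) = cp j s ↔ i = j ∧ t = s := by
  simp [cp]
omit [LinearOrder T₁] [LinearOrder T₂] in
@[simp] theorem kp_ne_cp (i j : T₁) (t : T₂) : ¬ ((kp i : NT T₁ T₂) = cp j t) := by
  simp [kp, cp]
omit [LinearOrder T₁] [LinearOrder T₂] in
@[simp] theorem cp_ne_kp (i j : T₁) (t : T₂) : ¬ ((cp j t : NT T₁ T₂) = kp i) := by
  simp [kp, cp]

omit [LinearOrder T₁] [LinearOrder L₁] [LinearOrder L₂] in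
theorem x_cases (x : NL T₁ L₁ L₂) : (∃ a, x = gl a) ∨ ∃ i y, x = lc i y := by
  rcases h : (ofLex x) with a | p
  · left
    exact ⟨a, by rw [← toLex_ofLex x, h]; rfl⟩
  · right
    refine ⟨(ofLex p).1, (ofLex p).2, ?_⟩
    rw [← toLex_ofLex x, h]
    rfl

@[simp] theorem gl_lt_gl (a b : L₁) : (gl a : NL T₁ L₁ L₂) < gl b ↔ a < b := by
  simp [gl, Sum.Lex.toLex_lt_toLex]
@[simp] theorem gl_lt_lc (a : L₁) (i : T₁) (y : L₂) : (gl a : NL T₁ L₁ L₂) < lc i y := by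
  simp [gl, lc, Sum.Lex.toLex_lt_toLex]
@[simp] theorem lc_lt_gl (a : L₁) (i : T₁) (y : L₂) : ¬ (lc i y : NL T₁ L₁ L₂) < gl a := by
  simp [gl, lc, Sum.Lex.toLex_lt_toLex]
@[simp] theorem lc_lt_lc (i j : T₁) (y z : L₂) :
    (lc i y : NL T₁ L₁ L₂) < lc j z ↔ i < j ∨ i = j ∧ y < z := by
  simp [lc, Sum.Lex.toLex_lt_toLex, Prod.Lex.toLex_lt_toLex]
omit [LinearOrder T₁] [LinearOrder L₁] [LinearOrder L₂] in
@[simp] theorem gl_inj (a b : L₁) : (gl a : NL T₁ L₁ L₂) = gl b ↔ a = b := by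
  simp [gl]
omit [LinearOrder T₁] [LinearOrder L₁] [LinearOrder L₂] in
@[simp] theorem gl_ne_lc (a : L₁) (i : T₁) (y : L₂) : ¬ (gl a : NL T₁ L₁ L₂) = lc i y := by
  simp [gl, lc]
omit [LinearOrder T₁] [LinearOrder L₁] [LinearOrder L₂] in
@[simp] theorem lc_ne_gl (a : L₁) (i : T₁) (y : L₂) : ¬ (lc i y : NL T₁ L₁ L₂) = gl a := by
  simp [gl, lc]
omit [LinearOrder T₁] [LinearOrder L₁] [LinearOrder L₂] in
@[simp] theorem lc_inj (i j : T₁) (y z : L₂) :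
    (lc i y : NL T₁ L₁ L₂) = lc j z ↔ i = j ∧ y = z := by
  simp [lc]

/-- occurrence relation of the composed system -/
def NR (sp₁ : Finset T₁) (R₁ : T₁ → L₁ → Prop) (R₂ : T₂ → L₂ → Prop) (g : T₁ → L₁ → T₂)
    (p : NT T₁ T₂) (x : NL T₁ L₁ L₂) : Prop :=
  (∃ i a, p = kp i ∧ x = gl a ∧ R₁ i a) ∨
  (∃ i a, p = cp i (g i a) ∧ x = gl a ∧ i ∈ sp₁ ∧ R₁ i a) ∨
  (∃ i t y, p = cp i t ∧ x = lc i y ∧ i ∈ sp₁ ∧ R₂ t y)

variable (sp₁ : Finset T₁) (R₁ : T₁ → L₁ → Prop) (R₂ : T₂ → L₂ → Prop) (g : T₁ → L₁ → T₂)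

omit [LinearOrder T₁] [LinearOrder L₁] [LinearOrder T₂] [LinearOrder L₂] in
@[simp] theorem NR_kg (i : T₁) (a : L₁) : NR sp₁ R₁ R₂ g (kp i) (gl a) ↔ R₁ i a := by
  constructor
  · rintro (⟨j, b, h1, h2, h3⟩ | ⟨j, b, h1, h2, h3⟩ | ⟨j, t, y, h1, h2, h3⟩)
    · rw [kp_inj] at h1
      rw [gl_inj] at h2
      subst h1 h2
      exact h3
    · simp at h1
    · simp at h1
  · intro h
    exact Or.inl ⟨i, a, rfl, rfl, h⟩

omit [LinearOrder T₁] [LinearOrder L₁] [LinearOrder T₂] [LinearOrder L₂] in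
@[simp] theorem NR_cg (i : T₁) (t : T₂) (a : L₁) :
    NR sp₁ R₁ R₂ g (cp i t) (gl a) ↔ i ∈ sp₁ ∧ R₁ i a ∧ g i a = t := by
  constructor
  · rintro (⟨j, b, h1, h2, h3⟩ | ⟨j, b, h1, h2, h3, h4⟩ | ⟨j, t, y, h1, h2, h3⟩)
    · simp at h1
    · rw [gl_inj] at h2
      rw [cp_inj] at h1
      obtain ⟨h1, h5⟩ := h1
      subst h1 h2
      exact ⟨h3, h4, h5.symm⟩
    · simp at h2
  · rintro ⟨h1, h2, rfl⟩
    exact Or.inr (Or.inl ⟨i, a, rfl, rfl, h1, h2⟩)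

omit [LinearOrder T₁] [LinearOrder L₁] [LinearOrder T₂] [LinearOrder L₂] in
@[simp] theorem NR_kl (i j : T₁) (y : L₂) : ¬ NR sp₁ R₁ R₂ g (kp i) (lc j y) := by
  rintro (⟨j, b, h1, h2, h3⟩ | ⟨j, b, h1, h2, h3, h4⟩ | ⟨j, t, y, h1, h2, h3⟩)
  · simp at h2
  · simp at h2
  · simp at h1

omit [LinearOrder T₁] [LinearOrder L₁] [LinearOrder T₂] [LinearOrder L₂] in
@[simp] theorem NR_cl (i j : T₁) (t : T₂) (y : L₂) :
    NR sp₁ R₁ R₂ g (cp i t) (lc j y) ↔ i = j ∧ i ∈ sp₁ ∧ R₂ t y := by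
  constructor
  · rintro (⟨j, b, h1, h2, h3⟩ | ⟨j, b, h1, h2, h3, h4⟩ | ⟨j, t, y, h1, h2, h3, h4⟩)
    · simp at h2
    · simp at h2
    · rw [cp_inj] at h1
      rw [lc_inj] at h2
      obtain ⟨h1, h5⟩ := h1
      obtain ⟨h2, h6⟩ := h2
      subst h1 h2 h5 h6
      exact ⟨rfl, h3, h4⟩
  · rintro ⟨h1, h2, h3⟩
    subst h1
    exact Or.inr (Or.inr ⟨i, t, y, rfl, rfl, h2, h3⟩)

end R391DS
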