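import Mathlib
import Pool.Agent.R391.DS.Step

namespace R391DS

variable {T₁ L₁ T₂ L₂ : Type} [LinearOrder T₁] [LinearOrder L₁] [LinearOrder T₂] [LinearOrder L₂]

omit [LinearOrder T₁] [LinearOrder T₂] in
@[simp] theorem fst_kp (i : T₁) : (ofLex (kp i : NT T₁ T₂)).1 = i := rfl
omit [LinearOrder T₁] [LinearOrder T₂] in
@[simp] theorem fst_cp (i : T₁) (t : T₂) : (ofLex (cp i t : NT T₁ T₂)).1 = i := rfl
omit [LinearOrder T₁] [LinearOrder T₂] in
@[simp] theorem snd_cp (i : T₁) (t : T₂) :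
    (ofLex (cp i t : NT T₁ T₂)).2 = (t : WithTop T₂) := rfl

theorem free_gg {sp₁ : Finset T₁} {R₁ : T₁ → L₁ → Prop} {R₂ : T₂ → L₂ → Prop}
    {g : T₁ → L₁ → T₂}
    (only : ∀ i ∈ sp₁, ∀ x, R₁ i x → ∀ j, R₁ j x → i ≤ j)
    (inv : ∀ i ∈ sp₁, ∀ x y, x < y → R₁ i x → R₁ i y → ∀ j k, i < j → i < k → R₁ j x →
      R₁ k y → k < j)
    (hg : ∀ i ∈ sp₁, ∀ a a', R₁ i a → R₁ i a' → a < a' → g i a' < g i a)
    (a b : L₁) (hab : a < b) (hfree : NoAlt R₁ a b) :
    NoAlt (NR sp₁ R₁ R₂ g) (gl a) (gl b) := by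
  classical
  by_cases hk : ∃ k ∈ sp₁, R₁ k a ∧ R₁ k b
  · obtain ⟨i, hi, hia, hib⟩ := hk
    have hgi := hg i hi a b hia hib hab
    refine ⟨fun p => if p ≤ kp i then 1 else 3, fun p => if p < kp i then 0 else 2, ?_, ?_, ?_, ?_⟩
    · intro p
      dsimp only
      split_ifs <;> norm_num
    · intro p
      dsimp only
      split_ifs <;> norm_num
    · intro p q hp hq hbef
      dsimp only
      rcases p_cases p with ⟨j, rfl⟩ | ⟨j, t, rfl⟩ <;> rcases p_cases q with ⟨k, rfl⟩ | ⟨k, s, rfl⟩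
      · simp only [NR_kg] at hp hq
        simp only [Bef, kp_lt_kp, kp_inj, gl_lt_gl] at hbef
        have h1 := only i hi a hia j hp
        have h2 := only i hi b hib k hq
        rcases h1.eq_or_lt with h1 | h1
        · subst h1
          simp [not_lt.2 h2]
        · exfalso
          have hik : i < k := by
            rcases hbef with h | h
            · exact h1.trans h
            · exact h.1 ▸ h1
          have := inv i hi a b hab hia hib j k h1 hik hp hq
          rcases hbef with h | h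
          · exact lt_irrefl _ (h.trans this)
          · rw [h.1] at this
            exact lt_irrefl _ this
      · exfalso
        simp only [NR_kg, NR_cg] at hp hq
        simp only [Bef, kp_lt_cp, kp_ne_cp, false_and, or_false] at hbef
        have h1 := only i hi a hia j hp
        have h2 := only k hq.1 b hq.2.1 i hib
        exact lt_irrefl _ (hbef.trans_le (h2.trans h1))
      · simp only [NR_kg, NR_cg] at hp hq
        have h1 := only j hp.1 a hp.2.1 i hia
        have h2 := only i hi b hib k hq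
        simp [h1, not_lt.2 h2]
      · exfalso
        simp only [NR_cg] at hp hq
        have h1 := le_antisymm (only j hp.1 a hp.2.1 i hia) (only i hi a hia j hp.2.1)
        have h2 := le_antisymm (only k hq.1 b hq.2.1 i hib) (only i hi b hib k hq.2.1)
        subst h1 h2
        simp only [Bef, cp_lt_cp, cp_inj, lt_self_iff_false, false_or, true_and] at hbef
        rw [← hp.2.2, ← hq.2.2] at hbef
        rcases hbef with h | h
        · exact lt_irrefl _ (h.trans hgi)
        · rw [h.1] at hgi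
          exact lt_irrefl _ hgi
    · intro p q hp hq hbef
      dsimp only
      by_cases hq' : q < kp i
      · rw [if_pos hq']
        split_ifs <;> norm_num
      · rw [if_neg hq']
        have : ¬ p ≤ kp i := by
          intro hpi
          rcases hbef with h | h
          · exact hq' (h.trans_le hpi)
          · rw [gl_lt_gl] at h
            exact lt_irrefl _ (h.2.trans hab)
        rw [if_neg this]
        norm_num
  · have hk' : ∀ k ∈ sp₁, R₁ k a → R₁ k b → False := fun k hk1 hk2 hk3 => hk ⟨k, hk1, hk2, hk3⟩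
    obtain ⟨px, py, h1, h2, h3, h4⟩ := hfree
    refine ⟨fun p => px (ofLex p).1, fun p => py (ofLex p).1, fun p => h1 _, fun p => h2 _, ?_, ?_⟩
    · intro p q hp hq hbef
      rcases p_cases p with ⟨j, rfl⟩ | ⟨j, t, rfl⟩ <;> rcases p_cases q with ⟨k, rfl⟩ | ⟨k, s, rfl⟩ <;>
        simp only [NR_kg, NR_cg] at hp hq
      · apply h3 j k hp hq
        simpa [Bef] using hbef
      · apply h3 j k hp hq.2.1
        simp only [Bef, kp_lt_cp, kp_ne_cp, false_and, or_false] at hbef
        exact Or.inl hbef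
      · apply h3 j k hp.2.1 hq
        simp only [Bef, cp_lt_kp, cp_ne_kp, false_and, or_false] at hbef
        rcases hbef.eq_or_lt with h | h
        · subst h
          exact (hk' _ hp.1 hp.2.1 hq).elim
        · exact Or.inl h
      · apply h3 j k hp.2.1 hq.2.1
        simp only [Bef, cp_lt_cp, cp_inj, gl_lt_gl] at hbef
        rcases hbef with (h | h) | h
        · exact Or.inl h
        · obtain ⟨h, _⟩ := h
          subst h
          exact (hk' _ hp.1 hp.2.1 hq.2.1).elim
        · exact Or.inr ⟨h.1.1, h.2⟩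
    · intro p q hp hq hbef
      rcases p_cases p with ⟨j, rfl⟩ | ⟨j, t, rfl⟩ <;> rcases p_cases q with ⟨k, rfl⟩ | ⟨k, s, rfl⟩ <;>
        simp only [NR_kg, NR_cg] at hp hq
      · apply h4 j k hp hq
        simpa [Bef] using hbef
      · apply h4 j k hp hq.2.1
        simp only [Bef, cp_lt_kp, cp_ne_kp, false_and, or_false] at hbef
        rcases hbef.eq_or_lt with h | h
        · subst h
          exact (hk' _ hq.1 hp hq.2.1).elim
        · exact Or.inl h
      · apply h4 j k hp.2.1 hq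
        simp only [Bef, kp_lt_cp, kp_ne_cp, false_and, or_false] at hbef
        exact Or.inl hbef
      · apply h4 j k hp.2.1 hq.2.1
        simp only [Bef, cp_lt_cp, cp_inj, gl_lt_gl] at hbef
        rcases hbef with (h | h) | h
        · exact Or.inl h
        · obtain ⟨h, _⟩ := h
          subst h
          exact (hk' _ hp.1 hp.2.1 hq.2.1).elim
        · exact Or.inr ⟨h.1.1, h.2⟩

theorem free_gl {sp₁ : Finset T₁} {R₁ : T₁ → L₁ → Prop} {R₂ : T₂ → L₂ → Prop}
    {g : T₁ → L₁ → T₂}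
    (only : ∀ i ∈ sp₁, ∀ x, R₁ i x → ∀ j, R₁ j x → i ≤ j)
    (a : L₁) (i : T₁) (y : L₂) (hi : i ∈ sp₁) :
    NoAlt (NR sp₁ R₁ R₂ g) (gl a) (lc i y) := by
  classical
  by_cases hia : R₁ i a
  · refine ⟨fun p => if p < kp i then 1 else 3, fun p => if p < cp i (g i a) then 0 else 2,
      ?_, ?_, ?_, ?_⟩
    · intro p
      dsimp only
      split_ifs <;> norm_num
    · intro p
      dsimp only
      split_ifs <;> norm_num
    · intro p q hp hq hbef
      dsimp only
      rcases p_cases p with ⟨j, rfl⟩ | ⟨j, t, rfl⟩ <;> rcases p_cases q with ⟨k, rfl⟩ | ⟨k, s, rfl⟩ <;>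
        simp only [NR_kg, NR_cg, NR_kl, NR_cl] at hp hq
      · exfalso
        obtain ⟨rfl, hq1, hq2⟩ := hq
        have h1 := only k hi a hia j hp
        simp only [Bef, kp_lt_cp, kp_ne_cp, false_and, or_false] at hbef
        exact lt_irrefl _ (hbef.trans_le h1)
      · obtain ⟨rfl, hq1, hq2⟩ := hq
        have h1 := le_antisymm (only j hp.1 a hp.2.1 k hia) (only k hi a hia j hp.2.1)
        subst h1
        simp only [cp_lt_kp, le_refl, if_true]
        rw [hp.2.2]
        have : ¬ (cp j s : NT T₁ T₂) < cp j t := by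
          intro h
          rcases hbef with h' | h'
          · exact lt_irrefl _ (h.trans h')
          · rw [h'.1] at h
            exact lt_irrefl _ h
        rw [if_neg this]
        norm_num
    · intro p q hp hq hbef
      dsimp only
      have hlt : q < p := by
        rcases hbef with h | h
        · exact h
        · simp at h
      rcases p_cases p with ⟨j, rfl⟩ | ⟨j, t, rfl⟩ <;> rcases p_cases q with ⟨k, rfl⟩ | ⟨k, s, rfl⟩ <;>
        simp only [NR_kg, NR_cg, NR_kl, NR_cl] at hp hq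
      · obtain ⟨rfl, hq1, hq2⟩ := hq
        have h1 := only k hi a hia j hp
        have : ¬ (kp j : NT T₁ T₂) < kp k := by simpa using h1
        rw [if_neg this]
        split_ifs <;> norm_num
      · obtain ⟨rfl, hq1, hq2⟩ := hq
        have h1 := le_antisymm (only j hp.1 a hp.2.1 k hia) (only k hi a hia j hp.2.1)
        subst h1
        rw [hp.2.2, if_pos hlt]
        simp
  · refine ⟨fun p => if p < kp i then 0 else 2, fun _ => 1, ?_, ?_, ?_, ?_⟩
    · intro p
      dsimp only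
      split_ifs <;> norm_num
    · intro p
      norm_num
    · intro p q hp hq hbef
      dsimp only
      have hle : p ≤ q := by
        rcases hbef with h | h
        · exact h.le
        · exact h.1.le
      rcases p_cases q with ⟨k, rfl⟩ | ⟨k, s, rfl⟩ <;> simp only [NR_kl, NR_cl] at hq
      obtain ⟨rfl, hq1, hq2⟩ := hq
      have : p < kp k := lt_of_le_of_lt hle (by simp)
      rw [if_pos this]
      norm_num
    · intro p q hp hq hbef
      dsimp only
      have hlt : q < p := by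
        rcases hbef with h | h
        · exact h
        · simp at h
      have : ¬ p < kp i := by
        intro hpi
        rcases p_cases p with ⟨j, rfl⟩ | ⟨j, t, rfl⟩ <;>
          rcases p_cases q with ⟨k, rfl⟩ | ⟨k, s, rfl⟩ <;>
          simp only [NR_kg, NR_cg, NR_kl, NR_cl] at hp hq
        · obtain ⟨rfl, hq1, hq2⟩ := hq
          simp only [cp_lt_kp, kp_lt_kp] at hlt hpi
          exact lt_irrefl _ (hpi.trans_le hlt)
        · obtain ⟨rfl, hq1, hq2⟩ := hq
          simp only [cp_lt_kp] at hpi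
          have h1 : (cp k s : NT T₁ T₂) < kp j := hlt.trans (by simp)
          rw [cp_lt_kp] at h1
          have h2 := le_antisymm h1 hpi
          subst h2
          exact hia hp.2.1
      rw [if_neg this]
      norm_num

theorem free_ll {sp₁ : Finset T₁} {R₁ : T₁ → L₁ → Prop} {R₂ : T₂ → L₂ → Prop}
    {g : T₁ → L₁ → T₂} (i j : T₁) (y z : L₂) (h : i < j ∨ (i = j ∧ NoAlt R₂ y z)) :
    NoAlt (NR sp₁ R₁ R₂ g) (lc i y) (lc j z) := by
  rcases h with h | ⟨rfl, h⟩
  · refine ⟨fun _ => 0, fun _ => 1, by simp, by simp, by simp, ?_⟩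
    intro p q hp hq hbef
    exfalso
    have hle : q ≤ p := by
      rcases hbef with h | h
      · exact h.le
      · exact h.1.le
    rcases p_cases p with ⟨k, rfl⟩ | ⟨k, t, rfl⟩ <;>
      rcases p_cases q with ⟨l, rfl⟩ | ⟨l, s, rfl⟩ <;>
      simp only [NR_kl, NR_cl] at hp hq
    obtain ⟨rfl, _⟩ := hp
    obtain ⟨rfl, _⟩ := hq
    rw [cp_le_cp] at hle
    rcases hle with h' | h'
    · exact lt_irrefl _ (h.trans h')
    · rw [h'.1] at h
      exact lt_irrefl _ h
  · obtain ⟨px, py, h1, h2, h3, h4⟩ := h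
    refine ⟨fun p => WithTop.untopD 0 (WithTop.map px (ofLex p).2),
      fun p => WithTop.untopD 0 (WithTop.map py (ofLex p).2), ?_, ?_, ?_, ?_⟩
    · intro p
      rcases p_cases p with ⟨k, rfl⟩ | ⟨k, t, rfl⟩
      · simp [kp]
      · exact h1 t
    · intro p
      rcases p_cases p with ⟨k, rfl⟩ | ⟨k, t, rfl⟩
      · simp [kp]
      · exact h2 t
    · intro p q hp hq hbef
      rcases p_cases p with ⟨k, rfl⟩ | ⟨k, t, rfl⟩ <;>
        rcases p_cases q with ⟨l, rfl⟩ | ⟨l, s, rfl⟩ <;>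
        simp only [NR_kl, NR_cl] at hp hq
      obtain ⟨rfl, _, hp⟩ := hp
      obtain ⟨rfl, _, hq⟩ := hq
      simp only [Bef, cp_lt_cp, cp_inj, lc_lt_lc, lt_self_iff_false, false_or, true_and] at hbef
      exact h3 t s hp hq hbef
    · intro p q hp hq hbef
      rcases p_cases p with ⟨k, rfl⟩ | ⟨k, t, rfl⟩ <;>
        rcases p_cases q with ⟨l, rfl⟩ | ⟨l, s, rfl⟩ <;>
        simp only [NR_kl, NR_cl] at hp hq
      obtain ⟨rfl, _, hp⟩ := hp
      obtain ⟨rfl, _, hq⟩ := hq
      simp only [Bef, cp_lt_cp, cp_inj, lc_lt_lc, lt_self_iff_false, false_or, true_and] at hbef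
      exact h4 t s hp hq hbef

theorem step {d m : ℕ} {tm₁ : Finset T₁} {lt₁ : Finset L₁} {sp₁ : Finset T₁}
    {R₁ : T₁ → L₁ → Prop} {tm₂ : Finset T₂} {lt₂ : Finset L₂} {sp₂ : Finset T₂}
    {R₂ : T₂ → L₂ → Prop}
    (H1 : IsSys d sp₂.card tm₁ lt₁ sp₁ R₁) (H2 : IsSys (d + 1) m tm₂ lt₂ sp₂ R₂)
    (hne : sp₂.Nonempty) :
    ∃ (tm : Finset (NT T₁ T₂)) (lt : Finset (NL T₁ L₁ L₂)) (sp : Finset (NT T₁ T₂))
      (R : NT T₁ T₂ → NL T₁ L₁ L₂ → Prop), IsSys (d + 1) (m + 1) tm lt sp R ∧
      sp.card = sp₁.card * sp₂.card ∧ tm.card = sp₁.card * tm₂.card + tm₁.card := by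
  classical
  have hex : ∀ i : T₁, ∃ g : L₁ → T₂, i ∈ sp₁ → ((∀ a, R₁ i a → g a ∈ sp₂) ∧
      (∀ t ∈ sp₂, ∃ a, R₁ i a ∧ g a = t) ∧
      (∀ a a', R₁ i a → R₁ i a' → a < a' → g a' < g a)) := by
    intro i
    by_cases hi : i ∈ sp₁
    · obtain ⟨B, hB, hB'⟩ := H1.sp_card i hi
      obtain ⟨g, hg1, hg2, hg3⟩ := rev_match B sp₂ hne hB
      refine ⟨g, fun _ => ⟨fun a ha => hg1 a ((hB' a).2 ha), ?_, ?_⟩⟩
      · intro t ht
        obtain ⟨a, ha, hat⟩ := hg2 t ht
        exact ⟨a, (hB' a).1 ha, hat⟩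
      · intro a a' ha ha' h
        exact hg3 a ((hB' a).2 ha) a' ((hB' a').2 ha') h
    · obtain ⟨t, _⟩ := hne
      exact ⟨fun _ => t, fun h => (hi h).elim⟩
  choose g hg using hex
  have hg1 : ∀ i ∈ sp₁, ∀ a, R₁ i a → g i a ∈ sp₂ := fun i hi => (hg i hi).1
  have hg2 : ∀ i ∈ sp₁, ∀ t ∈ sp₂, ∃ a, R₁ i a ∧ g i a = t := fun i hi => (hg i hi).2.1
  have hg3 : ∀ i ∈ sp₁, ∀ a a', R₁ i a → R₁ i a' → a < a' → g i a' < g i a :=
    fun i hi => (hg i hi).2.2
  have hg4 : ∀ i ∈ sp₁, ∀ a a', R₁ i a → R₁ i a' → g i a = g i a' → a = a' := by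
    intro i hi a a' ha ha' h
    rcases lt_trichotomy a a' with h1 | h1 | h1
    · have := hg3 i hi a a' ha ha' h1
      rw [h] at this
      exact (lt_irrefl _ this).elim
    · exact h1
    · have := hg3 i hi a' a ha' ha h1
      rw [h] at this
      exact (lt_irrefl _ this).elim
  have hcp : Function.Injective (fun q : T₁ × T₂ => (cp q.1 q.2 : NT T₁ T₂)) := by
    rintro ⟨a, b⟩ ⟨c, e⟩ h
    simpa using h
  have hkp : Function.Injective (fun q : T₁ => (kp q : NT T₁ T₂)) := by
    intro a b h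
    simpa using h
  refine ⟨(sp₁ ×ˢ tm₂).image (fun q => cp q.1 q.2) ∪ tm₁.image kp,
    lt₁.image gl ∪ (sp₁ ×ˢ lt₂).image (fun q => lc q.1 q.2),
    (sp₁ ×ˢ sp₂).image (fun q => cp q.1 q.2), NR sp₁ R₁ R₂ g, ?_, ?_, ?_⟩
  rotate_left
  · rw [Finset.card_image_of_injective _ hcp, Finset.card_product]
  · rw [Finset.card_union_of_disjoint, Finset.card_image_of_injective _ hcp,
      Finset.card_image_of_injective _ hkp, Finset.card_product]
    rw [Finset.disjoint_left]
    intro p hp hq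
    rw [Finset.mem_image] at hp hq
    obtain ⟨⟨a, b⟩, _, rfl⟩ := hp
    obtain ⟨c, _, h⟩ := hq
    simp at h
  refine ⟨?_, ?_, ?_, ?_, ?_, ?_, ?_, ?_, ?_⟩
  · rintro p x (⟨i, a, rfl, rfl, h⟩ | ⟨i, a, rfl, rfl, hi, h⟩ | ⟨i, t, y, rfl, rfl, hi, h⟩)
    · rw [Finset.mem_union]
      exact Or.inr (Finset.mem_image_of_mem _ (H1.R_tm _ _ h))
    · rw [Finset.mem_union]
      left
      rw [Finset.mem_image]
      exact ⟨(i, g i a), Finset.mem_product.2 ⟨hi, H2.sp_tm (hg1 i hi a h)⟩, rfl⟩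
    · rw [Finset.mem_union]
      left
      rw [Finset.mem_image]
      exact ⟨(i, t), Finset.mem_product.2 ⟨hi, H2.R_tm _ _ h⟩, rfl⟩
  · rintro p x (⟨i, a, rfl, rfl, h⟩ | ⟨i, a, rfl, rfl, hi, h⟩ | ⟨i, t, y, rfl, rfl, hi, h⟩)
    · rw [Finset.mem_union]
      exact Or.inl (Finset.mem_image_of_mem _ (H1.R_lt _ _ h))
    · rw [Finset.mem_union]
      exact Or.inl (Finset.mem_image_of_mem _ (H1.R_lt _ _ h))
    · rw [Finset.mem_union]
      right
      rw [Finset.mem_image]
      exact ⟨(i, y), Finset.mem_product.2 ⟨hi, H2.R_lt _ _ h⟩, rfl⟩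
  · intro p hp
    rw [Finset.mem_image] at hp
    obtain ⟨⟨i, t⟩, hq, rfl⟩ := hp
    rw [Finset.mem_product] at hq
    rw [Finset.mem_union]
    left
    rw [Finset.mem_image]
    exact ⟨(i, t), Finset.mem_product.2 ⟨hq.1, H2.sp_tm hq.2⟩, rfl⟩
  · intro p hp
    rw [Finset.mem_image] at hp
    obtain ⟨⟨i, t⟩, hq, rfl⟩ := hp
    rw [Finset.mem_product] at hq
    obtain ⟨hi, ht⟩ := hq
    dsimp only at hi ht ⊢
    obtain ⟨a, ha, hat⟩ := hg2 i hi t ht
    obtain ⟨B, hB, hB'⟩ := H2.sp_card t ht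
    refine ⟨insert (gl a) (B.image (lc i)), ?_, ?_⟩
    · rw [Finset.card_insert_of_notMem, Finset.card_image_of_injective, hB]
      · intro y z h
        simpa using h
      · rw [Finset.mem_image]
        rintro ⟨y, _, h⟩
        simp at h
    · intro x
      rcases x_cases x with ⟨b, rfl⟩ | ⟨j, y, rfl⟩
      · rw [NR_cg, Finset.mem_insert, Finset.mem_image, gl_inj]
        constructor
        · rintro (h | ⟨y, _, h⟩)
          · subst h
            exact ⟨hi, ha, hat⟩
          · simp at h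
        · rintro ⟨_, hb, hbt⟩
          left
          exact hg4 i hi b a hb ha (hbt.trans hat.symm)
      · rw [NR_cl, Finset.mem_insert, Finset.mem_image]
        constructor
        · rintro (h | ⟨z, hz, h⟩)
          · simp at h
          · rw [lc_inj] at h
            obtain ⟨rfl, rfl⟩ := h
            exact ⟨rfl, hi, (hB' _).1 hz⟩
        · rintro ⟨rfl, _, h⟩
          exact Or.inr ⟨y, (hB' _).2 h, rfl⟩
  · intro x hx
    rw [Finset.mem_union, Finset.mem_image, Finset.mem_image] at hx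
    rcases hx with ⟨a, ha, rfl⟩ | ⟨⟨i, y⟩, hq, rfl⟩
    · obtain ⟨B, hB, hB'⟩ := H1.many a ha
      obtain ⟨i, hi, hia⟩ := H1.first a ha
      refine ⟨insert (cp i (g i a)) (B.image kp), ?_, ?_⟩
      · rw [Finset.card_insert_of_notMem, Finset.card_image_of_injective _ hkp]
        · omega
        · rw [Finset.mem_image]
          rintro ⟨y, _, h⟩
          simp at h
      · intro p hp
        rw [Finset.mem_insert, Finset.mem_image] at hp
        rcases hp with rfl | ⟨j, hj, rfl⟩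
        · rw [NR_cg]
          exact ⟨hi, hia, rfl⟩
        · rw [NR_kg]
          exact hB' j hj
    · rw [Finset.mem_product] at hq
      obtain ⟨hi, hy⟩ := hq
      dsimp only at hi hy ⊢
      obtain ⟨B, hB, hB'⟩ := H2.many y hy
      refine ⟨B.image (cp i), ?_, ?_⟩
      · rw [Finset.card_image_of_injective]
        · exact hB
        · intro t s h
          simpa using h
      · intro p hp
        rw [Finset.mem_image] at hp
        obtain ⟨t, ht, rfl⟩ := hp
        rw [NR_cl]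
        exact ⟨rfl, hi, hB' t ht⟩
  · intro x hx
    rw [Finset.mem_union, Finset.mem_image, Finset.mem_image] at hx
    rcases hx with ⟨a, ha, rfl⟩ | ⟨⟨i, y⟩, hq, rfl⟩
    · obtain ⟨i, hi, hia⟩ := H1.first a ha
      refine ⟨cp i (g i a), ?_, ?_⟩
      · rw [Finset.mem_image]
        exact ⟨(i, g i a), Finset.mem_product.2 ⟨hi, hg1 i hi a hia⟩, rfl⟩
      · rw [NR_cg]
        exact ⟨hi, hia, rfl⟩
    · rw [Finset.mem_product] at hq
      obtain ⟨hi, hy⟩ := hq
      dsimp only at hi hy ⊢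
      obtain ⟨t, ht, hty⟩ := H2.first y hy
      refine ⟨cp i t, ?_, ?_⟩
      · rw [Finset.mem_image]
        exact ⟨(i, t), Finset.mem_product.2 ⟨hi, ht⟩, rfl⟩
      · rw [NR_cl]
        exact ⟨rfl, hi, hty⟩
  · intro p hp x hx q hq
    rw [Finset.mem_image] at hp
    obtain ⟨⟨i, t⟩, hit, rfl⟩ := hp
    rw [Finset.mem_product] at hit
    obtain ⟨hi, ht⟩ := hit
    dsimp only at hi ht hx ⊢
    rcases x_cases x with ⟨a, rfl⟩ | ⟨j, y, rfl⟩
    · rw [NR_cg] at hx
      rcases p_cases q with ⟨k, rfl⟩ | ⟨k, s, rfl⟩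
      · rw [NR_kg] at hq
        rw [cp_le_kp]
        exact H1.only i hi a hx.2.1 k hq
      · rw [NR_cg] at hq
        have h1 := H1.only i hi a hx.2.1 k hq.2.1
        have h2 := H1.only k hq.1 a hq.2.1 i hx.2.1
        have h3 := le_antisymm h1 h2
        subst h3
        rw [cp_le_cp]
        right
        exact ⟨rfl, (hx.2.2.symm.trans hq.2.2).le⟩
    · rw [NR_cl] at hx
      rcases p_cases q with ⟨k, rfl⟩ | ⟨k, s, rfl⟩
      · exact (NR_kl _ _ _ _ _ _ _ hq).elim
      · rw [NR_cl] at hq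
        obtain ⟨rfl, _, hx⟩ := hx
        obtain ⟨rfl, _, hq⟩ := hq
        rw [cp_le_cp]
        exact Or.inr ⟨rfl, H2.only t ht y hx s hq⟩
  · intro p hp x y hxy hx hy q r hpq hpr hqx hry
    rw [Finset.mem_image] at hp
    obtain ⟨⟨i, t⟩, hit, rfl⟩ := hp
    rw [Finset.mem_product] at hit
    obtain ⟨hi, ht⟩ := hit
    dsimp only at hi ht hx hy hpq hpr ⊢
    rcases x_cases x with ⟨a, rfl⟩ | ⟨j, y1, rfl⟩ <;> rcases x_cases y with ⟨b, rfl⟩ | ⟨k, y2, rfl⟩
    · rw [NR_cg] at hx hy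
      rw [gl_lt_gl] at hxy
      have := hg4 i hi a b hx.2.1 hy.2.1 (hx.2.2.trans hy.2.2.symm)
      rw [this] at hxy
      exact (lt_irrefl _ hxy).elim
    · rw [NR_cg] at hx
      rw [NR_cl] at hy
      obtain ⟨rfl, _, hy⟩ := hy
      rcases p_cases r with ⟨l, rfl⟩ | ⟨l, s, rfl⟩
      · exact (NR_kl _ _ _ _ _ _ _ hry).elim
      · rw [NR_cl] at hry
        obtain ⟨rfl, _, hry⟩ := hry
        rcases p_cases q with ⟨l', rfl⟩ | ⟨l', s', rfl⟩
        · rw [NR_kg] at hqx
          rw [cp_lt_kp]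
          exact H1.only _ hi a hx.2.1 l' hqx
        · exfalso
          rw [NR_cg] at hqx
          have h1 := H1.only _ hi a hx.2.1 l' hqx.2.1
          have h2 := H1.only l' hqx.1 a hqx.2.1 _ hx.2.1
          have h3 := le_antisymm h1 h2
          subst h3
          rw [← hx.2.2, ← hqx.2.2] at hpq
          exact lt_irrefl _ hpq
    · exact (lc_lt_gl _ _ _ hxy).elim
    · rw [NR_cl] at hx hy
      obtain ⟨rfl, _, hx⟩ := hx
      obtain ⟨rfl, _, hy⟩ := hy
      rcases p_cases q with ⟨l', rfl⟩ | ⟨l', s', rfl⟩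
      · exact (NR_kl _ _ _ _ _ _ _ hqx).elim
      rcases p_cases r with ⟨l, rfl⟩ | ⟨l, s, rfl⟩
      · exact (NR_kl _ _ _ _ _ _ _ hry).elim
      rw [NR_cl] at hqx hry
      obtain ⟨rfl, _, hqx⟩ := hqx
      obtain ⟨rfl, _, hry⟩ := hry
      simp only [cp_lt_cp, lt_self_iff_false, false_or, true_and, lc_lt_lc] at hpq hpr hxy ⊢
      exact H2.inv t ht y1 y2 hxy hx hy s' s hpq hpr hqx hry
  · intro x y hxy hx hy
    rw [Finset.mem_union, Finset.mem_image, Finset.mem_image] at hx hy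
    rcases hx with ⟨a, ha, rfl⟩ | ⟨⟨i, y1⟩, hq1, rfl⟩ <;>
      rcases hy with ⟨b, hb, rfl⟩ | ⟨⟨j, y2⟩, hq2, rfl⟩
    · rw [gl_lt_gl] at hxy
      exact free_gg H1.only H1.inv hg3 a b hxy (H1.free a b hxy ha hb)
    · rw [Finset.mem_product] at hq2
      exact free_gl H1.only a j y2 hq2.1
    · exact (lc_lt_gl _ _ _ hxy).elim
    · rw [Finset.mem_product] at hq1 hq2
      rw [lc_lt_lc] at hxy
      apply free_ll
      rcases hxy with h | h
      · exact Or.inl h
      · exact Or.inr ⟨h.1, H2.free _ _ h.2 hq1.2 hq2.2⟩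

end R391DS
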