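import Mathlib
import Pool.Agent.R391.DS.Step2

namespace R391DS

def HasSys (d m N s : ℕ) : Prop :=
  ∃ (T L : Type) (_ : LinearOrder T) (_ : LinearOrder L) (tm : Finset T) (lt : Finset L)
    (sp : Finset T) (R : T → L → Prop), IsSys d m tm lt sp R ∧ sp.card = s ∧ tm.card = N

theorem HasSys.step {d m N₁ s₁ N₂ s₂ : ℕ} (h2 : HasSys (d + 1) m N₂ s₂)
    (h1 : HasSys d s₂ N₁ s₁) (hs : 0 < s₂) :
    HasSys (d + 1) (m + 1) (s₁ * N₂ + N₁) (s₁ * s₂) := by
  obtain ⟨T₂, L₂, _, _, tm₂, lt₂, sp₂, R₂, H2, rfl, rfl⟩ := h2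
  obtain ⟨T₁, L₁, _, _, tm₁, lt₁, sp₁, R₁, H1, rfl, rfl⟩ := h1
  obtain ⟨tm, lt, sp, R, H, h3, h4⟩ := R391DS.step H1 H2 (Finset.card_pos.1 hs)
  exact ⟨_, _, inferInstance, inferInstance, tm, lt, sp, R, H, h3, h4⟩

theorem HasSys.base (d m : ℕ) (hd : d = 0 ∨ m = 0) : HasSys d m 2 2 := by
  obtain ⟨tm, lt, sp, R, H, h3, h4⟩ := R391DS.base d m hd
  exact ⟨_, _, inferInstance, inferInstance, tm, lt, sp, R, H, h3, h4⟩

theorem exists_sys (d : ℕ) : ∃ C, ∀ m, ∃ N s, HasSys d m N s ∧ 2 ≤ s ∧ N ≤ C * s := by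
  induction d with
  | zero => exact ⟨1, fun m => ⟨2, 2, HasSys.base 0 m (Or.inl rfl), le_rfl, by norm_num⟩⟩
  | succ d ih =>
    obtain ⟨R, hR⟩ := ih
    have key : ∀ m, ∃ N s, HasSys (d + 1) m N s ∧ 2 ≤ s ∧ 2 ^ m ≤ s ∧
        2 ^ m * N + 2 * R * s ≤ (1 + 2 * R) * 2 ^ m * s := by
      intro m
      induction m with
      | zero =>
        refine ⟨2, 2, HasSys.base _ _ (Or.inr rfl), le_rfl, by norm_num, ?_⟩
        simp only [pow_zero]
        nlinarith
      | succ m ihm =>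
        obtain ⟨N₂, s₂, h2, hs2, hs2', hc⟩ := ihm
        obtain ⟨N₁, s₁, h1, hs1, hc1⟩ := hR s₂
        refine ⟨_, _, HasSys.step h2 h1 (by omega), ?_, ?_, ?_⟩
        · nlinarith
        · rw [pow_succ]
          nlinarith
        · have e1 : 2 ^ (m + 1) * N₁ ≤ 2 * R * (s₁ * s₂) := by
            calc 2 ^ (m + 1) * N₁ = 2 ^ m * (2 * N₁) := by ring
              _ ≤ s₂ * (2 * (R * s₁)) := Nat.mul_le_mul hs2' (by omega)
              _ = 2 * R * (s₁ * s₂) := by ring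
          have e2 : 2 * s₁ * (2 ^ m * N₂ + 2 * R * s₂) ≤
              2 * s₁ * ((1 + 2 * R) * 2 ^ m * s₂) := Nat.mul_le_mul_left _ hc
          calc 2 ^ (m + 1) * (s₁ * N₂ + N₁) + 2 * R * (s₁ * s₂)
              = 2 ^ (m + 1) * N₁ + (2 * s₁ * (2 ^ m * N₂) + 2 * R * (s₁ * s₂)) := by ring
            _ ≤ 2 * R * (s₁ * s₂) + (2 * s₁ * (2 ^ m * N₂) + 2 * R * (s₁ * s₂)) := by
                exact Nat.add_le_add_right e1 _
            _ = 2 * s₁ * (2 ^ m * N₂ + 2 * R * s₂) := by ring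
            _ ≤ 2 * s₁ * ((1 + 2 * R) * 2 ^ m * s₂) := e2
            _ = (1 + 2 * R) * 2 ^ (m + 1) * (s₁ * s₂) := by ring
    refine ⟨1 + 2 * R, fun m => ?_⟩
    obtain ⟨N, s, h, hs, _, hc⟩ := key m
    refine ⟨N, s, h, hs, ?_⟩
    have : 2 ^ m * N ≤ 2 ^ m * ((1 + 2 * R) * s) := by
      calc 2 ^ m * N ≤ 2 ^ m * N + 2 * R * s := Nat.le_add_right _ _
        _ ≤ (1 + 2 * R) * 2 ^ m * s := hc
        _ = 2 ^ m * ((1 + 2 * R) * s) := by ring
    exact Nat.le_of_mul_le_mul_left this (by positivity)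

theorem exists_good (K : ℕ) : ∃ (T L : Type) (_ : LinearOrder T) (_ : LinearOrder L)
    (tm : Finset T) (lt : Finset L) (O : Finset (T × L)),
    (∀ q ∈ O, q.1 ∈ tm ∧ q.2 ∈ lt) ∧ 0 < tm.card ∧ K * tm.card ≤ O.card ∧
    K * lt.card ≤ O.card ∧
    (∀ x y, x < y → x ∈ lt → y ∈ lt → NoAlt (fun i z => (i, z) ∈ O) x y) := by
  classical
  obtain ⟨C, hC⟩ := exists_sys K
  obtain ⟨N, s, ⟨T, L, _, _, tm, lt, sp, R, H, hs, hN⟩, hs2, hNs⟩ := hC C
  have hO1 : K * lt.card ≤ ((tm ×ˢ lt).filter (fun q => R q.1 q.2)).card := by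
    have hex : ∀ x : L, ∃ B : Finset T, x ∈ lt → K < B.card ∧ ∀ i ∈ B, R i x := by
      intro x
      by_cases hx : x ∈ lt
      · obtain ⟨B, hB⟩ := H.many x hx
        exact ⟨B, fun _ => hB⟩
      · exact ⟨∅, fun h => (hx h).elim⟩
    choose B hB using hex
    have h1 : (lt.sigma B).card ≤ ((tm ×ˢ lt).filter (fun q => R q.1 q.2)).card := by
      apply Finset.card_le_card_of_injOn (fun q => (q.2, q.1))
      · intro q hq
        rw [Finset.mem_coe, Finset.mem_sigma] at hq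
        rw [Finset.mem_coe, Finset.mem_filter, Finset.mem_product]
        have := (hB q.1 hq.1).2 q.2 hq.2
        exact ⟨⟨H.R_tm _ _ this, hq.1⟩, this⟩
      · rintro ⟨a, b⟩ _ ⟨c, e⟩ _ h
        simp only [Prod.mk.injEq] at h
        obtain ⟨rfl, rfl⟩ := h
        rfl
    rw [Finset.card_sigma] at h1
    refine le_trans ?_ h1
    rw [mul_comm, ← smul_eq_mul]
    exact Finset.card_nsmul_le_sum _ _ _ (fun x hx => (hB x hx).1.le)
  have hlt : s * C ≤ lt.card := by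
    have hex : ∀ i : T, ∃ B : Finset L, i ∈ sp → B.card = C ∧ ∀ x, x ∈ B ↔ R i x := by
      intro i
      by_cases hi : i ∈ sp
      · obtain ⟨B, hB⟩ := H.sp_card i hi
        exact ⟨B, fun _ => hB⟩
      · exact ⟨∅, fun h => (hi h).elim⟩
    choose B hB using hex
    have h1 : (sp.biUnion B).card = s * C := by
      rw [Finset.card_biUnion]
      · rw [Finset.sum_congr rfl (fun i hi => (hB i hi).1), Finset.sum_const, hs, smul_eq_mul]
      · intro i hi j hj hij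
        change Disjoint (B i) (B j)
        rw [Finset.disjoint_left]
        intro x hx1 hx2
        apply hij
        have h1 := ((hB i hi).2 x).1 hx1
        have h2 := ((hB j hj).2 x).1 hx2
        exact le_antisymm (H.only i hi x h1 j h2) (H.only j hj x h2 i h1)
    rw [← h1]
    apply Finset.card_le_card
    intro x hx
    rw [Finset.mem_biUnion] at hx
    obtain ⟨i, hi, hx⟩ := hx
    exact H.R_lt i x (((hB i hi).2 x).1 hx)
  refine ⟨T, L, inferInstance, inferInstance, tm, lt,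
    (tm ×ˢ lt).filter (fun q => R q.1 q.2), ?_, ?_, ?_, hO1, ?_⟩
  · intro q hq
    rw [Finset.mem_filter, Finset.mem_product] at hq
    exact hq.1
  · have := Finset.card_le_card H.sp_tm
    omega
  · refine le_trans ?_ hO1
    apply Nat.mul_le_mul_left
    rw [hN]
    refine hNs.trans ?_
    rw [mul_comm]
    exact hlt
  · intro x y hxy hx hy
    obtain ⟨px, py, h1, h2, h3, h4⟩ := H.free x y hxy hx hy
    refine ⟨px, py, h1, h2, ?_, ?_⟩
    · intro i j hi hj hb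
      rw [Finset.mem_filter] at hi hj
      exact h3 i j hi.2 hj.2 hb
    · intro i j hi hj hb
      rw [Finset.mem_filter] at hi hj
      exact h4 i j hi.2 hj.2 hb

end R391DS
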