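import Mathlib
import Pool.Agent.R391.DS.Exist
import Pool.Agent.R391.DS.Comb

namespace R391DS

/-- no two distinct letters alternate five times along the positions in `S` -/
def Free5 (u : ℕ → ℕ) (S : Finset ℕ) : Prop :=
  ∀ p1 ∈ S, ∀ p2 ∈ S, ∀ p3 ∈ S, ∀ p4 ∈ S, ∀ p5 ∈ S, p1 < p2 → p2 < p3 → p3 < p4 → p4 < p5 →
    u p1 = u p3 → u p3 = u p5 → u p2 = u p4 → u p1 = u p2

/-- embedding a good system into a family of parallel blocks -/
theorem embed {T L : Type} [LinearOrder T] [LinearOrder L] {tm : Finset T} {lt : Finset L}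
    {O : Finset (T × L)} (hO : ∀ q ∈ O, q.1 ∈ tm ∧ q.2 ∈ lt)
    (hfree : ∀ x y, x < y → x ∈ lt → y ∈ lt → NoAlt (fun i z => (i, z) ∈ O) x y)
    (u : ℕ → ℕ) (pos : T → L → ℕ) (ψ : L → ℕ)
    (hψ : ∀ x ∈ lt, ∀ y ∈ lt, x < y → ψ x ≠ ψ y)
    (hu : ∀ i ∈ tm, ∀ x ∈ lt, u (pos i x) = ψ x)
    (hpos : ∀ i ∈ tm, ∀ x ∈ lt, ∀ j ∈ tm, ∀ y ∈ lt, Bef i x j y → pos i x < pos j y) :
    Free5 u (O.image (fun q => pos q.1 q.2)) ∧
      (O.image (fun q => pos q.1 q.2)).card = O.card ∧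
      (O.image (fun q => pos q.1 q.2)).image u ⊆ lt.image ψ := by
  classical
  have tri : ∀ (i j : T) (x y : L), Bef i x j y ∨ (i = j ∧ x = y) ∨ Bef j y i x := by
    intro i j x y
    rcases lt_trichotomy i j with h | h | h
    · exact Or.inl (Or.inl h)
    · rcases lt_trichotomy x y with h' | h' | h'
      · exact Or.inl (Or.inr ⟨h, h'⟩)
      · exact Or.inr (Or.inl ⟨h, h'⟩)
      · exact Or.inr (Or.inr (Or.inr ⟨h.symm, h'⟩))
    · exact Or.inr (Or.inr (Or.inl h))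
  have hrev : ∀ i ∈ tm, ∀ x ∈ lt, ∀ j ∈ tm, ∀ y ∈ lt, pos i x < pos j y → Bef i x j y := by
    intro i hi x hx j hj y hy h
    rcases tri i j x y with h' | h' | h'
    · exact h'
    · rw [h'.1, h'.2] at h
      exact (lt_irrefl _ h).elim
    · exact (lt_irrefl _ (h.trans (hpos j hj y hy i hi x hx h'))).elim
  have hψ' : ∀ x ∈ lt, ∀ y ∈ lt, ψ x = ψ y → x = y := by
    intro x hx y hy h
    rcases lt_trichotomy x y with h' | h' | h'
    · exact (hψ x hx y hy h' h).elim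
    · exact h'
    · exact (hψ y hy x hx h' h.symm).elim
  have hfree' : ∀ x ∈ lt, ∀ y ∈ lt, x ≠ y → NoAlt (fun i z => (i, z) ∈ O) x y := by
    intro x hx y hy h
    rcases lt_or_gt_of_ne h with h' | h'
    · exact hfree x y h' hx hy
    · exact (hfree y x h' hy hx).symm
  refine ⟨?_, ?_, ?_⟩
  · intro p1 h1 p2 h2 p3 h3 p4 h4 p5 h5 h12 h23 h34 h45 e13 e35 e24
    rw [Finset.mem_image] at h1 h2 h3 h4 h5
    obtain ⟨⟨i1, x1⟩, hq1, rfl⟩ := h1
    obtain ⟨⟨i2, x2⟩, hq2, rfl⟩ := h2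
    obtain ⟨⟨i3, x3⟩, hq3, rfl⟩ := h3
    obtain ⟨⟨i4, x4⟩, hq4, rfl⟩ := h4
    obtain ⟨⟨i5, x5⟩, hq5, rfl⟩ := h5
    dsimp only at *
    have k1 := hO _ hq1
    have k2 := hO _ hq2
    have k3 := hO _ hq3
    have k4 := hO _ hq4
    have k5 := hO _ hq5
    dsimp only at k1 k2 k3 k4 k5
    rw [hu i1 k1.1 x1 k1.2, hu i3 k3.1 x3 k3.2] at e13
    rw [hu i3 k3.1 x3 k3.2, hu i5 k5.1 x5 k5.2] at e35
    rw [hu i2 k2.1 x2 k2.2, hu i4 k4.1 x4 k4.2] at e24
    have f13 := hψ' x1 k1.2 x3 k3.2 e13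
    have f35 := hψ' x3 k3.2 x5 k5.2 e35
    have f24 := hψ' x2 k2.2 x4 k4.2 e24
    have b12 := hrev i1 k1.1 x1 k1.2 i2 k2.1 x2 k2.2 h12
    have b23 := hrev i2 k2.1 x2 k2.2 i3 k3.1 x3 k3.2 h23
    have b34 := hrev i3 k3.1 x3 k3.2 i4 k4.1 x4 k4.2 h34
    have b45 := hrev i4 k4.1 x4 k4.2 i5 k5.1 x5 k5.2 h45
    subst f35 f13 f24
    rw [hu i1 k1.1 _ k1.2, hu i2 k2.1 _ k2.2]
    by_contra hne
    have hne' : x1 ≠ x2 := fun h => hne (by rw [h])
    obtain ⟨px, py, g1, g2, g3, g4⟩ := hfree' _ k1.2 _ k2.2 hne'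
    have c1 := g3 i1 i2 hq1 hq2 b12
    have c2 := g4 i3 i2 hq3 hq2 b23
    have c3 := g3 i3 i4 hq3 hq4 b34
    have c4 := g4 i5 i4 hq5 hq4 b45
    have c5 := g1 i5
    omega
  · apply Finset.card_image_of_injOn
    rintro ⟨i, x⟩ hq1 ⟨j, y⟩ hq2 h
    have k1 := hO _ hq1
    have k2 := hO _ hq2
    dsimp only at k1 k2 h
    rcases tri i j x y with h' | h' | h'
    · have := hpos i k1.1 x k1.2 j k2.1 y k2.2 h'
      rw [h] at this
      exact (lt_irrefl _ this).elim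
    · rw [h'.1, h'.2]
    · have := hpos j k2.1 y k2.2 i k1.1 x k1.2 h'
      rw [h] at this
      exact (lt_irrefl _ this).elim
  · intro a ha
    rw [Finset.mem_image] at ha
    obtain ⟨p, hp, rfl⟩ := ha
    rw [Finset.mem_image] at hp
    obtain ⟨⟨i, x⟩, hq, rfl⟩ := hp
    have k := hO _ hq
    dsimp only at k ⊢
    rw [hu i k.1 x k.2]
    exact Finset.mem_image_of_mem _ k.2

theorem lemmaS (K : ℕ) (hK : 1 ≤ K) : ∃ M ≥ 1, ∃ D, ∀ (u : ℕ → ℕ) (W A : Finset ℕ),
    D ≤ A.card → (∀ a ∈ A, 2 * K * M ≤ (W.filter (fun p => u p = a)).card) →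
    ∃ S ⊆ W, Free5 u S ∧ (S.image u).card ≤ 2 * K * M ∧ S.image u ⊆ A ∧
      K * (2 * K * M) ≤ S.card := by
  classical
  obtain ⟨T, L, _, _, tm, lt, O, hO, htm, hc1, hc2, hfree⟩ := exists_good (2 * K * K)
  obtain ⟨M, hM⟩ : ∃ M, M = max tm.card lt.card := ⟨_, rfl⟩
  have hM1 : tm.card ≤ M := by rw [hM]; exact le_max_left _ _
  have hM2 : lt.card ≤ M := by rw [hM]; exact le_max_right _ _
  have hM3 : 1 ≤ M := by omega
  have hcO : 2 * K * K * M ≤ O.card := by
    rcases le_total tm.card lt.card with h | h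
    · rw [max_eq_right h] at hM
      rw [hM]
      exact hc2
    · rw [max_eq_left h] at hM
      rw [hM]
      exact hc1
  obtain ⟨D1, hD1⟩ := es_iter (2 * M) M hM3
  obtain ⟨D, hD⟩ := dich_iter (2 * K * M) (2 * M) (D1 + 1) (by omega)
  refine ⟨M, hM3, D, fun u W A hA hocc => ?_⟩
  have hex : ∀ a : ℕ, ∃ p : ℕ → ℕ, a ∈ A → (∀ j < 2 * K * M, p j ∈ W.filter (fun p => u p = a)) ∧
      ∀ i j, i < j → j < 2 * K * M → p i < p j := by
    intro a
    by_cases ha : a ∈ A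
    · obtain ⟨p, hp⟩ := exists_enum (W.filter (fun p => u p = a)) (2 * K * M) (hocc a ha)
      exact ⟨p, fun _ => hp⟩
    · exact ⟨fun _ => 0, fun h => (ha h).elim⟩
  choose p hp using hex
  have hpW : ∀ a ∈ A, ∀ j < 2 * K * M, p a j ∈ W := fun a ha j hj =>
    (Finset.mem_filter.1 ((hp a ha).1 j hj)).1
  have hpu : ∀ a ∈ A, ∀ j < 2 * K * M, u (p a j) = a := fun a ha j hj =>
    (Finset.mem_filter.1 ((hp a ha).1 j hj)).2
  have hpm : ∀ a ∈ A, ∀ i j, i < j → j < 2 * K * M → p a i < p a j := fun a ha => (hp a ha).2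
  have hpm' : ∀ a ∈ A, ∀ i j, i ≤ j → j < 2 * K * M → p a i ≤ p a j := by
    intro a ha i j hij hj
    rcases hij.eq_or_lt with h | h
    · rw [h]
    · exact (hpm a ha i j h hj).le
  have hidx : ∀ c < 2 * M, ∀ j < K, c * K + j < 2 * K * M := by
    intro c hc j hj
    have : (c + 1) * K ≤ 2 * M * K := Nat.mul_le_mul_right _ hc
    nlinarith
  rcases hD (fun c a => p a (c * K)) (fun c a => p a (c * K + (K - 1))) A hA
    (fun c hc a ha => hpm' a ha _ _ (by omega) (hidx c hc (K - 1) (by omega))) with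
    ⟨c, hc, B, hBA, hBc, hBd⟩ | ⟨B, hBA, hBc, x, hx⟩
  · -- disjoint intervals
    refine ⟨(B ×ˢ Finset.range K).image (fun q => p q.1 (c * K + q.2)), ?_, ?_, ?_, ?_, ?_⟩
    · intro z hz
      rw [Finset.mem_image] at hz
      obtain ⟨⟨a, j⟩, hq, rfl⟩ := hz
      rw [Finset.mem_product, Finset.mem_range] at hq
      exact hpW a (hBA hq.1) _ (hidx c hc j hq.2)
    · intro p1 h1 p2 h2 p3 h3 _ _ _ _ h12 h23 _ _ e13 _ _
      rw [Finset.mem_image] at h1 h2 h3
      obtain ⟨⟨a1, j1⟩, hq1, rfl⟩ := h1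
      obtain ⟨⟨a2, j2⟩, hq2, rfl⟩ := h2
      obtain ⟨⟨a3, j3⟩, hq3, rfl⟩ := h3
      rw [Finset.mem_product, Finset.mem_range] at hq1 hq2 hq3
      dsimp only at hq1 hq2 hq3 h12 h23 e13 ⊢
      rw [hpu a1 (hBA hq1.1) _ (hidx c hc _ hq1.2), hpu a3 (hBA hq3.1) _ (hidx c hc _ hq3.2)]
        at e13
      rw [hpu a1 (hBA hq1.1) _ (hidx c hc _ hq1.2), hpu a2 (hBA hq2.1) _ (hidx c hc _ hq2.2)]
      subst e13
      by_contra hne
      have l1 := hpm' a1 (hBA hq1.1) (c * K) (c * K + j1) (by omega) (hidx c hc _ hq1.2)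
      have l2 := hpm' a2 (hBA hq2.1) (c * K) (c * K + j2) (by omega) (hidx c hc _ hq2.2)
      have r2 := hpm' a2 (hBA hq2.1) (c * K + j2) (c * K + (K - 1)) (by omega)
        (hidx c hc _ (by omega))
      have r3 := hpm' a1 (hBA hq1.1) (c * K + j3) (c * K + (K - 1)) (by omega)
        (hidx c hc _ (by omega))
      have := hBd a1 hq1.1 a2 hq2.1 hne
      omega
    · have : ((B ×ˢ Finset.range K).image (fun q => p q.1 (c * K + q.2))).image u ⊆ B := by
        intro z hz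
        rw [Finset.mem_image] at hz
        obtain ⟨y, hy, rfl⟩ := hz
        rw [Finset.mem_image] at hy
        obtain ⟨⟨a, j⟩, hq, rfl⟩ := hy
        rw [Finset.mem_product, Finset.mem_range] at hq
        dsimp only at hq ⊢
        rw [hpu a (hBA hq.1) _ (hidx c hc j hq.2)]
        exact hq.1
      exact (Finset.card_le_card this).trans hBc.le
    · intro z hz
      rw [Finset.mem_image] at hz
      obtain ⟨y, hy, rfl⟩ := hz
      rw [Finset.mem_image] at hy
      obtain ⟨⟨a, j⟩, hq, rfl⟩ := hy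
      rw [Finset.mem_product, Finset.mem_range] at hq
      dsimp only at hq ⊢
      rw [hpu a (hBA hq.1) _ (hidx c hc j hq.2)]
      exact hBA hq.1
    · rw [Finset.card_image_of_injOn, Finset.card_product, hBc, Finset.card_range, mul_comm]
      rintro ⟨a, i⟩ hq1 ⟨b, j⟩ hq2 h
      rw [Finset.mem_coe, Finset.mem_product, Finset.mem_range] at hq1 hq2
      dsimp only at hq1 hq2 h
      have e : a = b := by
        rw [← hpu a (hBA hq1.1) _ (hidx c hc _ hq1.2), ← hpu b (hBA hq2.1) _ (hidx c hc _ hq2.2), h]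
      subst e
      rcases lt_trichotomy i j with h' | h' | h'
      · have := hpm a (hBA hq1.1) (c * K + i) (c * K + j) (by omega) (hidx c hc _ hq2.2)
        omega
      · rw [h']
      · have := hpm a (hBA hq1.1) (c * K + j) (c * K + i) (by omega) (hidx c hc _ hq1.2)
        omega
  · -- parallel blocks
    obtain ⟨B', hB'B, hB'c, hB'm⟩ := hD1 (fun c a => p a (c * K)) B (by omega) (by
      intro c hc a ha b hb h
      dsimp only at h
      have h1 := hpu a (hBA ha) (c * K) (by simpa using hidx c hc 0 (by omega))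
      have h2 := hpu b (hBA hb) (c * K) (by simpa using hidx c hc 0 (by omega))
      rw [← h1, ← h2, h])
    have hB'A : B' ⊆ A := hB'B.trans hBA
    -- majority
    have hmaj : M ≤ ((Finset.range (2 * M)).filter
        (fun c => StrictMonoOn (fun a => p a (c * K)) B')).card ∨
        M ≤ ((Finset.range (2 * M)).filter
        (fun c => StrictAntiOn (fun a => p a (c * K)) B')).card := by
      by_contra hcon
      push Not at hcon
      have h1 : (Finset.range (2 * M)) ⊆ ((Finset.range (2 * M)).filter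
        (fun c => StrictMonoOn (fun a => p a (c * K)) B')) ∪ ((Finset.range (2 * M)).filter
        (fun c => StrictAntiOn (fun a => p a (c * K)) B')) := by
        intro c hc
        rw [Finset.mem_union, Finset.mem_filter, Finset.mem_filter]
        rcases hB'm c (Finset.mem_range.1 hc) with h | h
        · exact Or.inl ⟨hc, h⟩
        · exact Or.inr ⟨hc, h⟩
      have h2 := (Finset.card_le_card h1).trans (Finset.card_union_le _ _)
      rw [Finset.card_range] at h2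
      omega
    -- finish from the data
    have fin : ∀ (φ : T → ℕ) (ψ : L → ℕ), (∀ i ∈ tm, φ i < 2 * M) →
        (∀ i ∈ tm, ∀ j ∈ tm, i < j → φ i < φ j) → (∀ x ∈ lt, ψ x ∈ B') →
        (∀ x ∈ lt, ∀ y ∈ lt, x < y → ψ x ≠ ψ y) →
        (∀ i ∈ tm, ∀ x ∈ lt, ∀ y ∈ lt, x < y → p (ψ x) (φ i * K) < p (ψ y) (φ i * K)) →
        ∃ S ⊆ W, Free5 u S ∧ (S.image u).card ≤ 2 * K * M ∧ S.image u ⊆ A ∧
          K * (2 * K * M) ≤ S.card := by
      intro φ ψ hφ hφm hψ hψi hmono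
      have h0 : ∀ c < 2 * M, c * K < 2 * K * M := fun c hc => by
        simpa using hidx c hc 0 (by omega)
      obtain ⟨E1, E2, E3⟩ := embed hO hfree u (fun i x => p (ψ x) (φ i * K)) ψ hψi
        (fun i hi x hx' => hpu (ψ x) (hB'A (hψ x hx')) _ (h0 _ (hφ i hi))) (by
          intro i hi x' hx' j hj y hy hb
          rcases hb with h | ⟨rfl, h⟩
          · have h1 := hφm i hi j hj h
            have h2 := (hx (φ i) (hφ i hi) (ψ x') (hB'B (hψ x' hx'))).1
            have h3 := (hx (φ i) (hφ i hi) (ψ y) (hB'B (hψ y hy))).2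
            have h4 : p (ψ y) (φ i * K + (K - 1)) < p (ψ y) (φ j * K) := by
              apply hpm _ (hB'A (hψ y hy)) _ _ _ (h0 _ (hφ j hj))
              have : (φ i + 1) * K ≤ φ j * K := Nat.mul_le_mul_right _ h1
              rw [Nat.succ_mul] at this
              omega
            omega
          · exact hmono i hi x' hx' y hy h)
      refine ⟨_, ?_, E1, ?_, ?_, ?_⟩
      · intro z hz
        rw [Finset.mem_image] at hz
        obtain ⟨⟨i, x'⟩, hq, rfl⟩ := hz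
        have k := hO _ hq
        exact hpW _ (hB'A (hψ x' k.2)) _ (h0 _ (hφ i k.1))
      · calc _ ≤ (lt.image ψ).card := Finset.card_le_card E3
          _ ≤ lt.card := Finset.card_image_le
          _ ≤ M := hM2
          _ ≤ 2 * K * M := Nat.le_mul_of_pos_left _ (by omega)
      · refine E3.trans ?_
        intro z hz
        rw [Finset.mem_image] at hz
        obtain ⟨x', hx', rfl⟩ := hz
        exact hB'A (hψ x' hx')
      · rw [E2]
        calc K * (2 * K * M) = 2 * K * K * M := by ring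
          _ ≤ O.card := hcO
    rcases hmaj with hmaj | hmaj
    · obtain ⟨φ, hφ1, hφ2⟩ := emb_up tm _ (hM1.trans hmaj)
      obtain ⟨ψ, hψ1, hψ2⟩ := emb_up lt B' (hM2.trans hB'c)
      refine fin φ ψ (fun i hi => Finset.mem_range.1 (Finset.mem_filter.1 (hφ1 i hi)).1) hφ2 hψ1
        (fun x' hx' y hy h => (hψ2 x' hx' y hy h).ne) ?_
      intro i hi x' hx' y hy h
      exact (Finset.mem_filter.1 (hφ1 i hi)).2 (hψ1 x' hx') (hψ1 y hy) (hψ2 x' hx' y hy h)
    · obtain ⟨φ, hφ1, hφ2⟩ := emb_up tm _ (hM1.trans hmaj)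
      obtain ⟨ψ, hψ1, hψ2⟩ := emb_down lt B' (hM2.trans hB'c)
      refine fin φ ψ (fun i hi => Finset.mem_range.1 (Finset.mem_filter.1 (hφ1 i hi)).1) hφ2 hψ1
        (fun x' hx' y hy h => (hψ2 x' hx' y hy h).ne') ?_
      intro i hi x' hx' y hy h
      exact (Finset.mem_filter.1 (hφ1 i hi)).2 (hψ1 y hy) (hψ1 x' hx') (hψ2 x' hx' y hy h)

end R391DS
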