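import Mathlib
import Pool.Agent.R391.DS.Core

namespace R391DS

theorem free5_of_const (u : ℕ → ℕ) (S : Finset ℕ) (a : ℕ) (h : ∀ p ∈ S, u p = a) :
    Free5 u S := by
  intro p1 h1 p2 h2 _ _ _ _ _ _ _ _ _ _ _ _ _
  rw [h p1 h1, h p2 h2]

theorem free5_of_inj (u : ℕ → ℕ) (S : Finset ℕ) (h : ∀ p ∈ S, ∀ q ∈ S, u p = u q → p = q) :
    Free5 u S := by
  intro p1 h1 p2 _ p3 h3 _ _ _ _ h12 h23 _ _ e13 _ _
  have := h p1 h1 p3 h3 e13
  omega

theorem window (K : ℕ) (hK : 1 ≤ K) : ∃ t ≥ 1, ∃ D, ∀ (u : ℕ → ℕ) (W U : Finset ℕ) (s : ℕ),
    D ≤ s → W.card = 4 * t * K * s → (W.image u).card < K * s →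
    2 * (W.filter (fun p => u p ∈ U)).card < 4 * t * K * s →
    ∃ P ⊆ W, Free5 u P ∧ (P.image u).card ≤ t ∧ Disjoint (P.image u) U ∧
      16 * K * K * t ≤ P.card := by
  classical
  obtain ⟨M, hM, D, hD⟩ := lemmaS (16 * K * K) (by nlinarith)
  obtain ⟨t, ht⟩ : ∃ t, t = 2 * (16 * K * K) * M := ⟨_, rfl⟩
  rw [← ht] at hD
  have ht1 : 1 ≤ t := by
    rw [ht]
    have : 0 < K * K * M := by positivity
    nlinarith
  refine ⟨t, ht1, 16 * K * D, fun u W U s hs hW hVc hpoor => ?_⟩
  by_cases hbig : ∃ a, a ∉ U ∧ 16 * K * K * t ≤ (W.filter (fun p => u p = a)).card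
  · obtain ⟨a, haU, ha⟩ := hbig
    have him : (W.filter (fun p => u p = a)).image u ⊆ {a} := by
      intro z hz
      rw [Finset.mem_image] at hz
      obtain ⟨p, hp, rfl⟩ := hz
      rw [Finset.mem_filter] at hp
      rw [Finset.mem_singleton]
      exact hp.2
    refine ⟨W.filter (fun p => u p = a), Finset.filter_subset _ _, ?_, ?_, ?_, ha⟩
    · exact free5_of_const u _ a (fun p hp => (Finset.mem_filter.1 hp).2)
    · exact (Finset.card_le_card him).trans (by simpa using ht1)
    · rw [Finset.disjoint_left]
      intro z hz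
      have := him hz
      rw [Finset.mem_singleton] at this
      rw [this]
      exact haU
  · push Not at hbig
    obtain ⟨V, hV⟩ : ∃ V, V = (W.image u) \ U := ⟨_, rfl⟩
    obtain ⟨A, hA⟩ : ∃ A, A = V.filter (fun a => t ≤ (W.filter (fun p => u p = a)).card) :=
      ⟨_, rfl⟩
    have hVc' : V.card < K * s := by
      rw [hV]
      exact (Finset.card_le_card Finset.sdiff_subset).trans_lt hVc
    have hsplit : (W.filter (fun p => u p ∈ U)).card + (W.filter (fun p => ¬ u p ∈ U)).card =
        W.card := Finset.card_filter_add_card_filter_not _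
    have hR : (W.filter (fun p => ¬ u p ∈ U)).card =
        ∑ a ∈ V, (W.filter (fun p => u p = a)).card := by
      rw [Finset.card_eq_sum_card_fiberwise (f := u) (t := V)]
      · apply Finset.sum_congr rfl
        intro a ha
        congr 1
        rw [hV, Finset.mem_sdiff] at ha
        ext p
        rw [Finset.mem_filter, Finset.mem_filter, Finset.mem_filter]
        constructor
        · rintro ⟨⟨h1, h2⟩, h3⟩
          exact ⟨h1, h3⟩
        · rintro ⟨h1, h3⟩
          exact ⟨⟨h1, by rw [h3]; exact ha.2⟩, h3⟩
      · intro p hp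
        rw [Finset.mem_coe, Finset.mem_filter] at hp
        rw [hV, Finset.mem_coe, Finset.mem_sdiff]
        exact ⟨Finset.mem_image_of_mem _ hp.1, hp.2⟩
    have hbound : ∑ a ∈ V, (W.filter (fun p => u p = a)).card ≤
        A.card * (16 * K * K * t) + V.card * t := by
      have h1 : ∀ a ∈ V, (W.filter (fun p => u p = a)).card ≤
          (if t ≤ (W.filter (fun p => u p = a)).card then 16 * K * K * t else 0) + t := by
        intro a ha
        split_ifs with h
        · rw [hV, Finset.mem_sdiff] at ha
          have := hbig a ha.2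
          omega
        · omega
      refine (Finset.sum_le_sum h1).trans ?_
      rw [Finset.sum_add_distrib, ← Finset.sum_filter, ← hA, Finset.sum_const, Finset.sum_const,
        smul_eq_mul, smul_eq_mul]
    have hVt : V.card * t ≤ K * s * t := Nat.mul_le_mul_right _ hVc'.le
    have h5 : K * s * t < A.card * (16 * K * K * t) := by
      have e : 4 * t * K * s = 4 * (K * s * t) := by ring
      rw [e] at hpoor hW
      omega
    have h6 : s < A.card * (16 * K) := by
      have e1 : K * s * t = (K * t) * s := by ring
      have e2 : A.card * (16 * K * K * t) = (K * t) * (A.card * (16 * K)) := by ring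
      rw [e1, e2] at h5
      exact Nat.lt_of_mul_lt_mul_left h5
    have h7 : D ≤ A.card := by
      by_contra hcon
      rw [not_le] at hcon
      have : A.card * (16 * K) ≤ D * (16 * K) := Nat.mul_le_mul_right _ hcon.le
      have e3 : D * (16 * K) = 16 * K * D := by ring
      omega
    obtain ⟨S, hSW, hSf, hSc, hSA, hSK⟩ := hD u W A h7 (fun a ha => by
      rw [hA, Finset.mem_filter] at ha
      exact ha.2)
    refine ⟨S, hSW, hSf, hSc, ?_, hSK⟩
    rw [Finset.disjoint_left]
    intro z hz
    have h8 := hSA hz
    rw [hA, Finset.mem_filter, hV, Finset.mem_sdiff] at h8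
    exact h8.1.2

theorem greedy (K : ℕ) (hK : 1 ≤ K) : ∃ s0, ∀ s ≥ s0, ∀ u : ℕ → ℕ,
    ∃ S ⊆ Finset.range (s * s), Free5 u S ∧ K * s ≤ S.card := by
  classical
  obtain ⟨t, ht, D, hD⟩ := window K hK
  refine ⟨max D (8 * t * K), fun s hs u => ?_⟩
  by_contra hcon
  push Not at hcon
  have hsD : D ≤ s := (le_max_left _ _).trans hs
  have hst : 8 * t * K ≤ s := (le_max_right _ _).trans hs
  have hlet : ∀ a, ((Finset.range (s * s)).filter (fun p => u p = a)).card < K * s := fun a =>
    hcon _ (Finset.filter_subset _ _)
      (free5_of_const u _ a (fun p hp => (Finset.mem_filter.1 hp).2))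
  have hnum : ((Finset.range (s * s)).image u).card < K * s := by
    have hex : ∀ a : ℕ, ∃ p : ℕ, a ∈ (Finset.range (s * s)).image u →
        p ∈ Finset.range (s * s) ∧ u p = a := by
      intro a
      by_cases ha : a ∈ (Finset.range (s * s)).image u
      · rw [Finset.mem_image] at ha
        obtain ⟨p, hp, h⟩ := ha
        exact ⟨p, fun _ => ⟨hp, h⟩⟩
      · exact ⟨0, fun h => (ha h).elim⟩
    choose rep hrep using hex
    have h1 : (((Finset.range (s * s)).image u).image rep).card =
        ((Finset.range (s * s)).image u).card := by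
      apply Finset.card_image_of_injOn
      intro a ha b hb h
      rw [← (hrep a ha).2, ← (hrep b hb).2, h]
    rw [← h1]
    apply hcon
    · intro p hp
      rw [Finset.mem_image] at hp
      obtain ⟨a, ha, rfl⟩ := hp
      exact (hrep a ha).1
    · apply free5_of_inj
      intro p hp q hq h
      rw [Finset.mem_image] at hp hq
      obtain ⟨a, ha, rfl⟩ := hp
      obtain ⟨b, hb, rfl⟩ := hq
      rw [(hrep a ha).2, (hrep b hb).2] at h
      rw [h]
  obtain ⟨L, hL⟩ : ∃ L, L = 4 * t * K * s := ⟨_, rfl⟩
  obtain ⟨w, hw⟩ : ∃ w, w = s / (4 * t * K) := ⟨_, rfl⟩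
  have htK : 0 < 4 * t * K := by positivity
  have hw1 : w * (4 * t * K) ≤ s := by
    rw [hw]
    exact Nat.div_mul_le_self _ _
  have hw2 : s < (w + 1) * (4 * t * K) := by
    have e1 := Nat.div_add_mod s (4 * t * K)
    have e2 := Nat.mod_lt s htK
    rw [← hw] at e1
    rw [Nat.succ_mul, mul_comm w]
    omega
  have hwL : w * L ≤ s * s := by
    calc w * L = (w * (4 * t * K)) * s := by rw [hL]; ring
      _ ≤ s * s := Nat.mul_le_mul_right _ hw1
  have key : ∀ j, j ≤ w → ∃ S U : Finset ℕ, S ⊆ Finset.range (j * L) ∧ Free5 u S ∧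
      S.image u ⊆ U ∧ U.card ≤ t * j ∧
      (16 * K * K * t) * L * j ≤ L * S.card +
        2 * (16 * K * K * t) * ((Finset.range (j * L)).filter (fun p => u p ∈ U)).card := by
    intro j
    induction j with
    | zero =>
      intro _
      exact ⟨∅, ∅, by simp, by intro p1 h1; simp at h1, by simp, by simp, by simp⟩
    | succ j ih =>
      intro hj
      obtain ⟨S, U, h1, h2, h3, h4, h5⟩ := ih (by omega)
      have hjL : (j + 1) * L ≤ s * s := (Nat.mul_le_mul_right _ hj).trans hwL
      have hWsub : Finset.Ico (j * L) ((j + 1) * L) ⊆ Finset.range (s * s) := by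
        intro p hp
        rw [Finset.mem_Ico] at hp
        rw [Finset.mem_range]
        omega
      have hWcard : (Finset.Ico (j * L) ((j + 1) * L)).card = L := by
        rw [Nat.card_Ico, Nat.succ_mul]
        omega
      have hcount : ∀ U' : Finset ℕ, U ⊆ U' →
          ((Finset.range (j * L)).filter (fun p => u p ∈ U)).card +
          ((Finset.Ico (j * L) ((j + 1) * L)).filter (fun p => u p ∈ U)).card ≤
          ((Finset.range ((j + 1) * L)).filter (fun p => u p ∈ U')).card := by
        intro U' hU'
        rw [← Finset.card_union_of_disjoint]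
        · apply Finset.card_le_card
          intro p hp
          rw [Finset.mem_union, Finset.mem_filter, Finset.mem_filter, Finset.mem_range,
            Finset.mem_Ico] at hp
          rw [Finset.mem_filter, Finset.mem_range]
          have : j * L ≤ (j + 1) * L := Nat.mul_le_mul_right _ (Nat.le_succ _)
          rcases hp with ⟨ha, hb⟩ | ⟨ha, hb⟩
          · exact ⟨by omega, hU' hb⟩
          · exact ⟨ha.2, hU' hb⟩
        · rw [Finset.disjoint_left]
          intro p hp hq
          rw [Finset.mem_filter, Finset.mem_range] at hp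
          rw [Finset.mem_filter, Finset.mem_Ico] at hq
          omega
      by_cases hpoor : 2 * ((Finset.Ico (j * L) ((j + 1) * L)).filter
          (fun p => u p ∈ U)).card < L
      · obtain ⟨P, hPW, hPf, hPc, hPd, hPK⟩ := hD u (Finset.Ico (j * L) ((j + 1) * L)) U s hsD
          (by rw [hWcard, hL])
          ((Finset.card_le_card (Finset.image_subset_image hWsub)).trans_lt hnum)
          (by rw [← hL]; exact hpoor)
        have hdisj : Disjoint S P := by
          rw [Finset.disjoint_left]
          intro p hp hq
          have h6 := h1 hp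
          have h7 := hPW hq
          rw [Finset.mem_range] at h6
          rw [Finset.mem_Ico] at h7
          omega
        have hSlt : ∀ p ∈ S, p < j * L := fun p hp => Finset.mem_range.1 (h1 hp)
        have hPge : ∀ p ∈ P, j * L ≤ p := fun p hp => (Finset.mem_Ico.1 (hPW hp)).1
        have hPu : ∀ p ∈ P, u p ∉ U := fun p hp =>
          Finset.disjoint_left.1 hPd (Finset.mem_image_of_mem _ hp)
        have hSu : ∀ p ∈ S, u p ∈ U := fun p hp => h3 (Finset.mem_image_of_mem _ hp)
        refine ⟨S ∪ P, U ∪ P.image u, ?_, ?_, ?_, ?_, ?_⟩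
        · intro p hp
          rw [Finset.mem_union] at hp
          rw [Finset.mem_range]
          have : j * L ≤ (j + 1) * L := Nat.mul_le_mul_right _ (Nat.le_succ _)
          rcases hp with hp | hp
          · have := hSlt p hp
            omega
          · exact (Finset.mem_Ico.1 (hPW hp)).2
        · intro p1 q1 p2 q2 p3 q3 p4 q4 p5 q5 h12 h23 h34 h45 e13 e35 e24
          rw [Finset.mem_union] at q1 q2 q3 q4 q5
          rcases q1 with q1 | q1
          · have hU1 := hSu p1 q1
            have q5' : p5 ∈ S := by
              rcases q5 with q5 | q5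
              · exact q5
              · exfalso
                apply hPu p5 q5
                rw [← e35, ← e13]
                exact hU1
            have hlt5 := hSlt p5 q5'
            have hS : ∀ p, p < j * L → (p ∈ S ∨ p ∈ P) → p ∈ S := by
              intro p hp hq
              rcases hq with hq | hq
              · exact hq
              · have := hPge p hq
                omega
            exact h2 p1 q1 p2 (hS _ (by omega) q2) p3 (hS _ (by omega) q3) p4
              (hS _ (by omega) q4) p5 q5' h12 h23 h34 h45 e13 e35 e24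
          · have hge1 := hPge p1 q1
            have hP : ∀ p, j * L ≤ p → (p ∈ S ∨ p ∈ P) → p ∈ P := by
              intro p hp hq
              rcases hq with hq | hq
              · have := hSlt p hq
                omega
              · exact hq
            exact hPf p1 q1 p2 (hP _ (by omega) q2) p3 (hP _ (by omega) q3) p4
              (hP _ (by omega) q4) p5 (hP _ (by omega) q5) h12 h23 h34 h45 e13 e35 e24
        · rw [Finset.image_union]
          exact Finset.union_subset_union h3 subset_rfl
        · refine (Finset.card_union_le _ _).trans ?_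
          rw [Nat.mul_succ]
          omega
        · have hc := hcount (U ∪ P.image u) Finset.subset_union_left
          rw [Finset.card_union_of_disjoint hdisj]
          have hc' := Nat.mul_le_mul_left (2 * (16 * K * K * t)) hc
          have hP' := Nat.mul_le_mul_left L hPK
          nlinarith
      · rw [not_lt] at hpoor
        refine ⟨S, U, h1.trans ?_, h2, h3, ?_, ?_⟩
        · intro p hp
          rw [Finset.mem_range] at hp ⊢
          have : j * L ≤ (j + 1) * L := Nat.mul_le_mul_right _ (Nat.le_succ _)
          omega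
        · rw [Nat.mul_succ]
          omega
        · have hc := hcount U subset_rfl
          have hc' := Nat.mul_le_mul_left (2 * (16 * K * K * t)) hc
          have hp' := Nat.mul_le_mul_left (16 * K * K * t) hpoor
          nlinarith
  obtain ⟨S, U, h1, h2, h3, h4, h5⟩ := key w le_rfl
  have hSsub : S ⊆ Finset.range (s * s) := h1.trans (by
    intro p hp
    rw [Finset.mem_range] at hp ⊢
    omega)
  have hSc := hcon S hSsub h2
  have hF : ((Finset.range (w * L)).filter (fun p => u p ∈ U)).card ≤ U.card * (K * s) := by
    rw [Finset.card_eq_sum_card_fiberwise (f := u) (t := U)]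
    · refine (Finset.sum_le_card_nsmul _ _ (K * s) ?_).trans (le_of_eq (smul_eq_mul _ _))
      intro a _
      refine le_trans (Finset.card_le_card ?_) (hlet a).le
      intro p hp
      rw [Finset.mem_filter, Finset.mem_filter, Finset.mem_range] at hp
      rw [Finset.mem_filter, Finset.mem_range]
      exact ⟨by omega, hp.2⟩
    · intro p hp
      rw [Finset.mem_coe, Finset.mem_filter] at hp
      exact hp.2
  have hF2 : U.card * (K * s) ≤ t * w * (K * s) := Nat.mul_le_mul_right _ h4
  have hF3 := Nat.mul_le_mul_left (2 * (16 * K * K * t)) (hF.trans hF2)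
  have hs0 : 0 < s := by
    have : 0 < 8 * t * K := by positivity
    omega
  have hL0 : 0 < L := by
    rw [hL]
    positivity
  have e1 : 2 * (16 * K * K * t) * (t * w * (K * s)) = L * (8 * K * K * t * w) := by
    rw [hL]
    ring
  have e2 : 16 * K * K * t * L * w = L * (8 * K * K * t * w) + L * (8 * K * K * t * w) := by
    ring
  have h6 : L * (8 * K * K * t * w) ≤ L * S.card := by
    rw [e1] at hF3
    rw [e2] at h5
    omega
  have h7 : 8 * K * K * t * w ≤ S.card := Nat.le_of_mul_le_mul_left h6 hL0
  have hw3 : 1 ≤ w := by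
    by_contra h
    have : w = 0 := by omega
    rw [this] at hw2
    have e3 : 8 * t * K = 2 * (4 * t * K) := by ring
    rw [e3] at hst
    omega
  have h8 : s ≤ 8 * t * K * w := by
    calc s ≤ (w + 1) * (4 * t * K) := hw2.le
      _ ≤ (2 * w) * (4 * t * K) := Nat.mul_le_mul_right _ (by omega)
      _ = 8 * t * K * w := by ring
  have h9 : K * s ≤ 8 * K * K * t * w := by
    calc K * s ≤ K * (8 * t * K * w) := Nat.mul_le_mul_left _ h8
      _ = 8 * K * K * t * w := by ring
  omega

end R391DS
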